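import Mathlib

/-!
# The side of a lattice point with respect to a proper two-sided lattice walk

The walk has steps `±(1,0)`, `±(0,1)`, `±(1,1)`; its height `u x + v y` tends to `±∞`. The parity of
the number of edges of the walk that cross the horizontal ray from a point does not change when
the point moves by `(1,0)`, `(0,1)` or `(1,1)` off the walk.
-/

set_option autoImplicit false

namespace Pool.Agent.H41.PC

open Filter

open Classical in
/-- The indicator of a proposition modulo two. -/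
noncomputable def ind (p : Prop) : ZMod 2 := if p then 1 else 0

theorem ind_add {a b c d : Prop} (h : (a ↔ b) ↔ (c ↔ d)) : ind a + ind b = ind c + ind d := by
  unfold ind
  by_cases ha : a <;> by_cases hb : b <;> by_cases hc : c <;> by_cases hd : d <;>
    simp only [ha, hb, hc, hd, if_true, if_false, iff_true, iff_false, not_true] at h ⊢ <;>
    first | exact absurd h not_false | decide

theorem ind_sum {a b c : Prop} (h : a ↔ ¬ (b ↔ c)) : ind a = ind b + ind c := by
  unfold ind
  by_cases ha : a <;> by_cases hb : b <;> by_cases hc : c <;>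
    simp only [ha, hb, hc, if_true, if_false, iff_true, iff_false, not_true, not_false_iff]
      at h ⊢ <;> first | exact absurd h not_false | decide

theorem ind_false {a : Prop} (h : ¬ a) : ind a = 0 := by
  unfold ind
  rw [if_neg h]

theorem ind_true {a : Prop} (h : a) : ind a = 1 := by
  unfold ind
  rw [if_pos h]

/-- Telescoping sums modulo two. -/
theorem tele (f : ℤ → ZMod 2) (a b : ℤ) (hab : a ≤ b) (c d : ZMod 2) (h1 : ∀ i ≤ a, f i = c)
    (h2 : ∀ i, b ≤ i → f i = d) : ∑ᶠ i, (f i + f (i + 1)) = c + d := by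
  have h2' : ∀ z : ZMod 2, z + z = 0 := by decide
  have h3 : ∀ n : ℕ, ∑ k ∈ Finset.range n, (f (a + k) + f (a + k + 1)) = f a + f (a + n) := by
    intro n
    induction n with
    | zero => simp [h2']
    | succ n ih =>
      rw [Finset.sum_range_succ, ih]
      have e : a + ((n + 1 : ℕ) : ℤ) = a + n + 1 := by push_cast; ring
      rw [e]
      have := h2' (f (a + n))
      linear_combination this
  obtain ⟨n, hn⟩ : ∃ n : ℕ, a + n = b := ⟨(b - a).toNat, by omega⟩
  set emb : ℕ ↪ ℤ := ⟨fun k => a + k, fun x y hxy => by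
    have : a + (x : ℤ) = a + y := hxy
    omega⟩ with hemb
  rw [finsum_eq_sum_of_support_subset (s := (Finset.range n).map emb)]
  · rw [Finset.sum_map]
    have h4 := h3 n
    rw [hn, h1 a le_rfl, h2 b le_rfl] at h4
    exact h4
  · intro i hi
    rw [Function.mem_support] at hi
    simp only [Finset.coe_map, Set.mem_image, Finset.coe_range, Set.mem_Iio]
    have h5 : a ≤ i := by
      by_contra hc
      apply hi
      rw [h1 i (by omega), h1 (i + 1) (by omega), h2']
    have h6 : i < b := by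
      by_contra hc
      apply hi
      rw [h2 i (by omega), h2 (i + 1) (by omega), h2']
    refine ⟨(i - a).toNat, by omega, ?_⟩
    show a + (((i - a).toNat : ℕ) : ℤ) = i
    omega

/-- A proper two-sided lattice walk; `H` is the height. -/
structure PWalk (u v : ℤ) (X Y H : ℤ → ℤ) : Prop where
  hu : 0 < u
  hv : 0 < v
  hH : ∀ i, H i = u * X i + v * Y i
  step : ∀ i, (X (i + 1) = X i + 1 ∧ Y (i + 1) = Y i) ∨ (X (i + 1) = X i - 1 ∧ Y (i + 1) = Y i) ∨
    (X (i + 1) = X i ∧ Y (i + 1) = Y i + 1) ∨ (X (i + 1) = X i ∧ Y (i + 1) = Y i - 1) ∨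
    (X (i + 1) = X i + 1 ∧ Y (i + 1) = Y i + 1) ∨ (X (i + 1) = X i - 1 ∧ Y (i + 1) = Y i - 1)
  top : Tendsto H atTop atTop
  bot : Tendsto H atBot atBot

/-- The edge from `i` to `i + 1` crosses the ray to the right of the point of height `h` and second
coordinate `y`. -/
def Cr (Y H : ℤ → ℤ) (h y i : ℤ) : Prop :=
  min (H i) (H (i + 1)) ≤ h ∧ h < max (H i) (H (i + 1)) ∧ min (Y i) (Y (i + 1)) < y

/-- The parity of the number of crossings. -/
noncomputable def Wd (Y H : ℤ → ℤ) (h y : ℤ) : ZMod 2 := ∑ᶠ i, ind (Cr Y H h y i)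

/-- The point `(x, y)` is not on the walk. -/
def Off (X Y : ℤ → ℤ) (x y : ℤ) : Prop := ∀ i, ¬ (X i = x ∧ Y i = y)

variable {u v : ℤ} {X Y H : ℤ → ℤ}

theorem PWalk.stepH (w : PWalk u v X Y H) (i : ℤ) :
    (H (i + 1) = H i + u ∧ Y (i + 1) = Y i) ∨ (H (i + 1) = H i - u ∧ Y (i + 1) = Y i) ∨
    (H (i + 1) = H i + v ∧ Y (i + 1) = Y i + 1) ∨ (H (i + 1) = H i - v ∧ Y (i + 1) = Y i - 1) ∨
    (H (i + 1) = H i + u + v ∧ Y (i + 1) = Y i + 1) ∨
    (H (i + 1) = H i - u - v ∧ Y (i + 1) = Y i - 1) := by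
  have h1 := w.hH i
  have h2 := w.hH (i + 1)
  rcases w.step i with h | h | h | h | h | h
  · refine Or.inl ⟨?_, h.2⟩
    rw [h2, h.1, h.2, h1]; ring
  · refine Or.inr (Or.inl ⟨?_, h.2⟩)
    rw [h2, h.1, h.2, h1]; ring
  · refine Or.inr (Or.inr (Or.inl ⟨?_, h.2⟩))
    rw [h2, h.1, h.2, h1]; ring
  · refine Or.inr (Or.inr (Or.inr (Or.inl ⟨?_, h.2⟩)))
    rw [h2, h.1, h.2, h1]; ring
  · refine Or.inr (Or.inr (Or.inr (Or.inr (Or.inl ⟨?_, h.2⟩))))
    rw [h2, h.1, h.2, h1]; ring
  · refine Or.inr (Or.inr (Or.inr (Or.inr (Or.inr ⟨?_, h.2⟩))))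
    rw [h2, h.1, h.2, h1]; ring

theorem PWalk.row (w : PWalk u v X Y H) {x y : ℤ} (hz : Off X Y x y) (i : ℤ) (hy : Y i = y) :
    H i ≤ u * x + v * y - u ∨ u * x + v * y + u ≤ H i := by
  have h1 := w.hH i
  have h2 := hz i
  have hu := w.hu
  rcases lt_trichotomy (X i) x with h3 | h3 | h3
  · left
    rw [h1, hy]
    nlinarith
  · exact absurd ⟨h3, hy⟩ h2
  · right
    rw [h1, hy]
    nlinarith

theorem PWalk.bounds (w : PWalk u v X Y H) (a b : ℤ) :
    ∃ k l : ℤ, k ≤ l ∧ (∀ i ≤ k, H i < a) ∧ ∀ i, l ≤ i → b < H i := by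
  obtain ⟨k, hk⟩ := (tendsto_atBot.1 w.bot (a - 1)).exists_forall_of_atBot
  obtain ⟨l, hl⟩ := (tendsto_atTop.1 w.top (b + 1)).exists_forall_of_atTop
  exact ⟨k, max k l, le_max_left _ _, fun i hi => by have := hk i hi; omega,
    fun i hi => by have := hl i (le_trans (le_max_right _ _) hi); omega⟩

theorem PWalk.fin (w : PWalk u v X Y H) (a b : ℤ) : {i | a ≤ H i ∧ H i ≤ b}.Finite := by
  obtain ⟨k, l, -, h1, h2⟩ := w.bounds a b
  apply (Set.finite_Icc k l).subset
  rintro i ⟨h3, h4⟩
  constructor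
  · by_contra hc
    have := h1 i (by omega)
    omega
  · by_contra hc
    have := h2 i (by omega)
    omega

theorem PWalk.cr_fin (w : PWalk u v X Y H) (h y : ℤ) : {i | Cr Y H h y i}.Finite := by
  apply (w.fin (h - u - v) (h + u + v)).subset
  rintro i ⟨h1, h2, h3⟩
  have hu := w.hu
  have hv := w.hv
  have := w.stepH i
  constructor <;> omega

theorem support_ind (p : ℤ → Prop) (hp : {i | p i}.Finite) :
    (Function.support fun i => ind (p i)).Finite := by
  apply hp.subset
  intro i hi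
  by_contra hc
  exact hi (ind_false hc)

/-- The comparison of two rays through a region with bounded heights. -/
theorem PWalk.compare (w : PWalk u v X Y H) (h y h' y' : ℤ) (G : ℤ → Prop) (a b : ℤ)
    (hG : ∀ i, G i → a ≤ H i ∧ H i ≤ b)
    (hloc : ∀ i, (Cr Y H h y i ↔ Cr Y H h' y' i) ↔ (G i ↔ G (i + 1))) :
    Wd Y H h y = Wd Y H h' y' := by
  have h1 : Wd Y H h y + Wd Y H h' y' = 0 := by
    unfold Wd
    rw [← finsum_add_distrib (support_ind _ (w.cr_fin h y)) (support_ind _ (w.cr_fin h' y'))]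
    obtain ⟨k, l, hkl, h2, h3⟩ := w.bounds a b
    have h4 := tele (fun i => ind (G i)) k l hkl 0 0
      (fun i hi => ind_false (fun hc => by have := hG i hc; have := h2 i hi; omega))
      (fun i hi => ind_false (fun hc => by have := hG i hc; have := h3 i hi; omega))
    rw [add_zero] at h4
    rw [← h4]
    exact finsum_congr (fun i => ind_add (hloc i))
  have h5 : ∀ s t : ZMod 2, s + t = 0 → s = t := by decide
  exact h5 _ _ h1

theorem PWalk.right (w : PWalk u v X Y H) {x y : ℤ} (h1 : Off X Y x y) (h2 : Off X Y (x + 1) y) :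
    Wd Y H (u * x + v * y) y = Wd Y H (u * (x + 1) + v * y) y := by
  have r1 := fun i => w.row h1 i
  have r2 := fun i => w.row h2 i
  rw [show u * (x + 1) + v * y = u * x + v * y + u by ring] at *
  set h := u * x + v * y with hh
  refine w.compare h y (h + u) y (fun i => h < H i ∧ H i ≤ h + u ∧ Y i < y) h (h + u)
    (fun i hi => ⟨by omega, by omega⟩) (fun i => ?_)
  have hu := w.hu
  have hv := w.hv
  have s := w.stepH i
  have r3 := r1 i
  have r4 := r1 (i + 1)
  have r5 := r2 i
  have r6 := r2 (i + 1)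
  unfold Cr
  generalize H i = p at *
  generalize H (i + 1) = p' at *
  generalize Y i = q at *
  generalize Y (i + 1) = q' at *
  rcases s with s | s | s | s | s | s <;> obtain ⟨rfl, rfl⟩ := s <;> omega

theorem PWalk.up (w : PWalk u v X Y H) {x y : ℤ} (h1 : Off X Y x y) :
    Wd Y H (u * x + v * y) y = Wd Y H (u * x + v * (y + 1)) (y + 1) := by
  have r1 := fun i => w.row h1 i
  rw [show u * x + v * (y + 1) = u * x + v * y + v by ring] at *
  set h := u * x + v * y with hh
  refine w.compare h y (h + v) (y + 1) (fun i => h < H i ∧ H i ≤ h + v ∧ Y i ≤ y) h (h + v)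
    (fun i hi => ⟨by omega, by omega⟩) (fun i => ?_)
  have hu := w.hu
  have hv := w.hv
  have s := w.stepH i
  have r3 := r1 i
  have r4 := r1 (i + 1)
  unfold Cr
  generalize H i = p at *
  generalize H (i + 1) = p' at *
  generalize Y i = q at *
  generalize Y (i + 1) = q' at *
  rcases s with s | s | s | s | s | s <;> obtain ⟨rfl, rfl⟩ := s <;> omega

theorem PWalk.diag (w : PWalk u v X Y H) {x y : ℤ} (h1 : Off X Y x y)
    (h2 : Off X Y (x + 1) (y + 1)) :
    Wd Y H (u * x + v * y) y = Wd Y H (u * (x + 1) + v * (y + 1)) (y + 1) := by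
  have r1 := fun i => w.row h1 i
  have r2 := fun i => w.row h2 i
  rw [show u * (x + 1) + v * (y + 1) = u * x + v * y + u + v by ring] at *
  set h := u * x + v * y with hh
  refine w.compare h y (h + u + v) (y + 1) (fun i => h < H i ∧ H i ≤ h + u + v ∧ Y i ≤ y) h
    (h + u + v) (fun i hi => ⟨by omega, by omega⟩) (fun i => ?_)
  have hu := w.hu
  have hv := w.hv
  have s := w.stepH i
  have r3 := r1 i
  have r4 := r1 (i + 1)
  have r5 := r2 i
  have r6 := r2 (i + 1)
  unfold Cr
  generalize H i = p at *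
  generalize H (i + 1) = p' at *
  generalize Y i = q at *
  generalize Y (i + 1) = q' at *
  rcases s with s | s | s | s | s | s <;> obtain ⟨rfl, rfl⟩ := s <;> omega

/-- A walk with the steps `±(1,0)`, `±(0,1)` only. -/
def NoDiag (X Y : ℤ → ℤ) : Prop :=
  ∀ i, (X (i + 1) = X i + 1 ∧ Y (i + 1) = Y i) ∨ (X (i + 1) = X i - 1 ∧ Y (i + 1) = Y i) ∨
    (X (i + 1) = X i ∧ Y (i + 1) = Y i + 1) ∨ (X (i + 1) = X i ∧ Y (i + 1) = Y i - 1)

theorem PWalk.anti (w : PWalk u v X Y H) (hn : NoDiag X Y) {x y : ℤ}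
    (h2 : Off X Y (x + 1) (y - 1)) :
    Wd Y H (u * x + v * y) y = Wd Y H (u * (x + 1) + v * (y - 1)) (y - 1) := by
  have r2 := fun i => w.row h2 i
  rw [show u * (x + 1) + v * (y - 1) = u * x + v * y + u - v by ring] at *
  set h := u * x + v * y with hh
  have hs : ∀ i, (H (i + 1) = H i + u ∧ Y (i + 1) = Y i) ∨
      (H (i + 1) = H i - u ∧ Y (i + 1) = Y i) ∨
      (H (i + 1) = H i + v ∧ Y (i + 1) = Y i + 1) ∨
      (H (i + 1) = H i - v ∧ Y (i + 1) = Y i - 1) := by
    intro i
    have h1 := w.hH i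
    have h2 := w.hH (i + 1)
    rcases hn i with h | h | h | h
    · refine Or.inl ⟨?_, h.2⟩
      rw [h2, h.1, h.2, h1]; ring
    · refine Or.inr (Or.inl ⟨?_, h.2⟩)
      rw [h2, h.1, h.2, h1]; ring
    · refine Or.inr (Or.inr (Or.inl ⟨?_, h.2⟩))
      rw [h2, h.1, h.2, h1]; ring
    · refine Or.inr (Or.inr (Or.inr ⟨?_, h.2⟩))
      rw [h2, h.1, h.2, h1]; ring
  have hu := w.hu
  have hv := w.hv
  rcases le_or_gt v u with hvu | hvu
  · refine w.compare h y (h + u - v) (y - 1) (fun i => h < H i ∧ H i ≤ h + u - v ∧ Y i < y - 1) h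
      (h + u) (fun i hi => ⟨by omega, by omega⟩) (fun i => ?_)
    have s := hs i
    have r5 := r2 i
    have r6 := r2 (i + 1)
    unfold Cr
    generalize H i = p at *
    generalize H (i + 1) = p' at *
    generalize Y i = q at *
    generalize Y (i + 1) = q' at *
    rcases s with s | s | s | s <;> obtain ⟨rfl, rfl⟩ := s <;> omega
  · refine w.compare h y (h + u - v) (y - 1)
      (fun i => h + u - v < H i ∧ H i ≤ h ∧ Y i ≤ y - 1) (h - v) h
      (fun i hi => ⟨by omega, by omega⟩) (fun i => ?_)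
    have s := hs i
    have r5 := r2 i
    have r6 := r2 (i + 1)
    unfold Cr
    generalize H i = p at *
    generalize H (i + 1) = p' at *
    generalize Y i = q at *
    generalize Y (i + 1) = q' at *
    rcases s with s | s | s | s <;> obtain ⟨rfl, rfl⟩ := s <;> omega

theorem PWalk.yBound (w : PWalk u v X Y H) (B : ℤ) :
    ∃ C : ℤ, ∀ i, -B ≤ H i → H i ≤ B → -C ≤ Y i ∧ Y i ≤ C := by
  obtain ⟨C, hC⟩ := ((w.fin (-B) B).image (fun i => |Y i|)).bddAbove
  refine ⟨C, fun i h1 h2 => ?_⟩
  have h3 : |Y i| ≤ C := hC ⟨i, ⟨h1, h2⟩, rfl⟩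
  exact abs_le.1 h3

/-- Far to the left and far to the right. -/
theorem PWalk.far (w : PWalk u v X Y H) (B : ℤ) :
    ∃ C : ℤ, (∀ x y, -B ≤ u * x + v * y → u * x + v * y ≤ B → C ≤ y →
      Off X Y x y ∧ Wd Y H (u * x + v * y) y = 1) ∧
      (∀ x y, -B ≤ u * x + v * y → u * x + v * y ≤ B → y ≤ -C →
      Off X Y x y ∧ Wd Y H (u * x + v * y) y = 0) := by
  obtain ⟨C, hC⟩ := w.yBound (B + u + v)
  have hu := w.hu
  have hv := w.hv
  refine ⟨C + 2, fun x y h1 h2 h3 => ⟨fun i hi => ?_, ?_⟩, fun x y h1 h2 h3 =>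
    ⟨fun i hi => ?_, ?_⟩⟩
  · have h4 := w.hH i
    rw [hi.1, hi.2] at h4
    have := hC i (by omega) (by omega)
    omega
  · set h := u * x + v * y with hh
    obtain ⟨k, l, hkl, h4, h5⟩ := w.bounds h h
    have h6 := tele (fun i => ind (H i ≤ h)) k l hkl 1 0
      (fun i hi => ind_true (by have := h4 i hi; omega))
      (fun i hi => ind_false (by have := h5 i hi; omega))
    rw [add_zero] at h6
    rw [← h6]
    refine finsum_congr (fun i => ind_sum ?_)
    have h7 := hC i
    have h8 := hC (i + 1)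
    have s := w.stepH i
    unfold Cr
    generalize H i = p at *
    generalize H (i + 1) = p' at *
    generalize Y i = q at *
    generalize Y (i + 1) = q' at *
    rcases s with s | s | s | s | s | s <;> obtain ⟨rfl, rfl⟩ := s <;> omega
  · have h4 := w.hH i
    rw [hi.1, hi.2] at h4
    have := hC i (by omega) (by omega)
    omega
  · set h := u * x + v * y with hh
    have h6 : ∀ i, ind (Cr Y H h y i) = 0 := by
      intro i
      apply ind_false
      have h7 := hC i
      have h8 := hC (i + 1)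
      have s := w.stepH i
      unfold Cr
      generalize H i = p at *
      generalize H (i + 1) = p' at *
      generalize Y i = q at *
      generalize Y (i + 1) = q' at *
      rcases s with s | s | s | s | s | s <;> obtain ⟨rfl, rfl⟩ := s <;> omega
    unfold Wd
    simp only [h6, finsum_zero]

end Pool.Agent.H41.PC
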