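import Mathlib
import Pool.Agent.H41.PC.Wind

/-!
# Left translations of a proper lattice walk

The translations which move the walk off itself, to its left, form a semigroup `L`, and even
`L + L + m ⊆ L` for the moves `m` under which the side does not change.
-/

set_option autoImplicit false

namespace Pool.Agent.H41.PC

open Filter

variable {u v : ℤ} {X Y H : ℤ → ℤ}

/-- The side of the point `(x, y)`. -/
noncomputable def Sd (u v : ℤ) (Y H : ℤ → ℤ) (x y : ℤ) : ZMod 2 := Wd Y H (u * x + v * y) y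

/-- The side does not change under the move `(a, b)` off the walk. -/
def Inv (u v : ℤ) (X Y H : ℤ → ℤ) (a b : ℤ) : Prop :=
  ∀ x y, Off X Y x y → Off X Y (x + a) (y + b) → Sd u v Y H x y = Sd u v Y H (x + a) (y + b)

theorem Inv.neg {a b : ℤ} (h : Inv u v X Y H a b) : Inv u v X Y H (-a) (-b) := by
  intro x y h1 h2
  have h3 := h (x + -a) (y + -b) h2 (by rwa [neg_add_cancel_right, neg_add_cancel_right])
  rw [neg_add_cancel_right, neg_add_cancel_right] at h3
  exact h3.symm

theorem PWalk.inv10 (w : PWalk u v X Y H) : Inv u v X Y H 1 0 := by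
  intro x y h1 h2
  rw [add_zero] at *
  exact w.right h1 h2

theorem PWalk.inv01 (w : PWalk u v X Y H) : Inv u v X Y H 0 1 := by
  intro x y h1 _
  rw [add_zero] at *
  exact w.up h1

theorem PWalk.inv11 (w : PWalk u v X Y H) : Inv u v X Y H 1 1 :=
  fun _ _ h1 h2 => w.diag h1 h2

theorem PWalk.invAnti (w : PWalk u v X Y H) (hn : NoDiag X Y) : Inv u v X Y H 1 (-1) :=
  fun _ _ _ h2 => w.anti hn h2

theorem PWalk.stepInv (w : PWalk u v X Y H) (i : ℤ) :
    ∃ a b, Inv u v X Y H a b ∧ X (i + 1) = X i + a ∧ Y (i + 1) = Y i + b := by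
  rcases w.step i with h | h | h | h | h | h
  · exact ⟨1, 0, w.inv10, h.1, by omega⟩
  · exact ⟨-1, -0, w.inv10.neg, by omega, by omega⟩
  · exact ⟨0, 1, w.inv01, by omega, h.2⟩
  · exact ⟨-0, -1, w.inv01.neg, by omega, by omega⟩
  · exact ⟨1, 1, w.inv11, h.1, h.2⟩
  · exact ⟨-1, -1, w.inv11.neg, by omega, by omega⟩

/-- The translate by `(p, q)` has no common vertex with the walk. -/
def Free (X Y : ℤ → ℤ) (p q : ℤ) : Prop := ∀ i, Off X Y (X i + p) (Y i + q)

theorem Free.neg {p q : ℤ} (h : Free X Y p q) : Free X Y (-p) (-q) := by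
  intro i j hj
  exact h j i ⟨by omega, by omega⟩

theorem PWalk.const (w : PWalk u v X Y H) {p q : ℤ} (hf : Free X Y p q) (i : ℤ) :
    Sd u v Y H (X i + p) (Y i + q) = Sd u v Y H (X 0 + p) (Y 0 + q) := by
  have h1 : ∀ i, Sd u v Y H (X i + p) (Y i + q) = Sd u v Y H (X (i + 1) + p) (Y (i + 1) + q) := by
    intro i
    obtain ⟨a, b, hab, hx, hy⟩ := w.stepInv i
    have h2 := hab (X i + p) (Y i + q) (hf i) (by
      have := hf (i + 1)
      rw [hx, hy] at this
      rwa [add_right_comm, add_right_comm (Y i)])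
    rw [h2, hx, hy, add_right_comm, add_right_comm (Y i)]
  rcases le_total 0 i with hi | hi
  · induction i, hi using Int.leInduction with
    | base => rfl
    | succ n hn ih => rw [← h1 n, ih]
  · induction i, hi using Int.leInductionDown with
    | base => rfl
    | pred n hn ih =>
      have := h1 (n - 1)
      rw [sub_add_cancel] at this
      rw [this, ih]

/-- The first vertices met by a sequence of moves from a side where all sides are `c`. -/
theorem first_hit (Qx Qy : ℤ → ℤ)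
    (hQ : ∀ k, ∃ a b, Inv u v X Y H a b ∧ Qx (k + 1) = Qx k + a ∧ Qy (k + 1) = Qy k + b)
    (c : ZMod 2) (hlow : ∀ p q, ∃ K, ∀ k ≤ K, Off X Y (Qx k - p) (Qy k - q) ∧
      Sd u v Y H (Qx k - p) (Qy k - q) = c)
    (hhit : ∀ p q, ∃ k, ¬ Off X Y (Qx k - p) (Qy k - q))
    (F : Finset (ℤ × ℤ)) (hF : F.Nonempty) :
    ∃ d ∈ F, ∃ i, ∀ e ∈ F, Off X Y (X i + d.1 - e.1) (Y i + d.2 - e.2) →
      Sd u v Y H (X i + d.1 - e.1) (Y i + d.2 - e.2) = c := by
  choose K hK using fun e : ℤ × ℤ => hlow e.1 e.2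
  obtain ⟨M, hM⟩ : ∃ M : ℤ, ∀ k ∈ F.image K, M ≤ k := by
    obtain ⟨M, hM⟩ := (F.image K).bddBelow
    exact ⟨M, fun k hk => hM (Finset.mem_coe.2 hk)⟩
  have hM' : ∀ e ∈ F, ∀ k ≤ M, Off X Y (Qx k - e.1) (Qy k - e.2) ∧
      Sd u v Y H (Qx k - e.1) (Qy k - e.2) = c :=
    fun e he k hk => hK e k (le_trans hk (hM _ (Finset.mem_image_of_mem _ he)))
  obtain ⟨d0, hd0⟩ := hF
  obtain ⟨k0, hk0⟩ := hhit d0.1 d0.2
  obtain ⟨k, ⟨d, hd, hk⟩, hmin⟩ := Int.exists_least_of_bdd
    (P := fun k => ∃ d ∈ F, ¬ Off X Y (Qx k - d.1) (Qy k - d.2))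
    ⟨M, fun k hk => by
      obtain ⟨d, hd, hk⟩ := hk
      by_contra hc
      exact hk (hM' d hd k (by omega)).1⟩ ⟨k0, d0, hd0, hk0⟩
  unfold Off at hk
  push Not at hk
  obtain ⟨i, hi1, hi2⟩ := hk
  refine ⟨d, hd, i, fun e he hoff => ?_⟩
  have e1 : X i + d.1 - e.1 = Qx k - e.1 := by omega
  have e2 : Y i + d.2 - e.2 = Qy k - e.2 := by omega
  rw [e1, e2] at hoff ⊢
  have h1 : ∀ j, min M k ≤ j → j ≤ k → Sd u v Y H (Qx j - e.1) (Qy j - e.2) = c := by
    intro j hj
    induction j, hj using Int.leInduction with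
    | base => intro _; exact (hM' e he _ (min_le_left _ _)).2
    | succ n hn ih =>
      intro hnk
      obtain ⟨a, b, hab, hx, hy⟩ := hQ n
      have h2 : Off X Y (Qx n - e.1) (Qy n - e.2) := by
        by_contra hc
        have := hmin n ⟨e, he, hc⟩
        omega
      have h3 : Off X Y (Qx (n + 1) - e.1) (Qy (n + 1) - e.2) := by
        rcases eq_or_lt_of_le hnk with h4 | h4
        · rw [h4]; exact hoff
        · by_contra hc
          have := hmin (n + 1) ⟨e, he, hc⟩
          omega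
      rw [hx, hy, add_sub_right_comm, add_sub_right_comm] at h3 ⊢
      rw [← hab _ _ h2 h3, ih (by omega)]
  exact h1 k (min_le_right _ _) le_rfl

/-- A staircase from the far left to the far right, with bounded heights. -/
theorem stairs (u v : ℤ) (hu : 0 < u) (hv : 0 < v) :
    ∃ Qx Qy : ℤ → ℤ, (∀ k, (Qx (k + 1) = Qx k + 1 ∧ Qy (k + 1) = Qy k) ∨
      (Qx (k + 1) = Qx k ∧ Qy (k + 1) = Qy k - 1)) ∧
      (∀ k, -(u + v) < u * Qx k + v * Qy k ∧ u * Qx k + v * Qy k ≤ 0) ∧
      (∀ C, ∃ K, ∀ k ≤ K, C ≤ Qy k) ∧ ∀ C, ∃ K, ∀ k, K ≤ k → Qy k ≤ -C := by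
  have huv : 0 < u + v := by omega
  have h1 : ∀ k, (u + v) * (v * k / (u + v)) ≤ v * k := fun k => Int.mul_ediv_self_le huv.ne'
  have h2 : ∀ k, v * k < (u + v) * (v * k / (u + v)) + (u + v) := fun k =>
    Int.lt_mul_ediv_self_add huv
  refine ⟨fun k => v * k / (u + v), fun k => v * k / (u + v) - k, fun k => ?_, fun k => ?_,
    fun C => ?_, fun C => ?_⟩
  · have a1 := h1 k
    have a2 := h2 k
    have a3 := h1 (k + 1)
    have a4 := h2 (k + 1)
    have e : v * (k + 1) = v * k + v := by ring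
    rw [e] at a3 a4
    show (v * (k + 1) / (u + v) = v * k / (u + v) + 1 ∧
      v * (k + 1) / (u + v) - (k + 1) = v * k / (u + v) - k) ∨
      (v * (k + 1) / (u + v) = v * k / (u + v) ∧
      v * (k + 1) / (u + v) - (k + 1) = v * k / (u + v) - k - 1)
    rw [e]
    set s := v * k / (u + v) with hs
    set t := (v * k + v) / (u + v) with ht
    have b1 : s ≤ t := by
      by_contra hc
      have : (u + v) * (t + 1) ≤ (u + v) * s := by
        apply mul_le_mul_of_nonneg_left _ huv.le
        omega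
      nlinarith
    have b2 : t ≤ s + 1 := by
      by_contra hc
      have : (u + v) * (s + 2) ≤ (u + v) * t := by
        apply mul_le_mul_of_nonneg_left _ huv.le
        omega
      nlinarith
    rcases eq_or_lt_of_le b1 with b3 | b3
    · right; omega
    · left; omega
  · have a1 := h1 k
    have a2 := h2 k
    show -(u + v) < u * (v * k / (u + v)) + v * (v * k / (u + v) - k) ∧
      u * (v * k / (u + v)) + v * (v * k / (u + v) - k) ≤ 0
    have e : u * (v * k / (u + v)) + v * (v * k / (u + v) - k) =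
        (u + v) * (v * k / (u + v)) - v * k := by ring
    rw [e]
    constructor <;> linarith
  · refine ⟨-((u + v) * (|C| + 1)), fun k hk => ?_⟩
    show C ≤ v * k / (u + v) - k
    have a2 := h2 k
    have e : (u + v) * (v * k / (u + v) - k) = (u + v) * (v * k / (u + v)) - (u + v) * k := by ring
    have h3 : (u + v) * C ≤ (u + v) * (v * k / (u + v) - k) := by
      rw [e]
      have h4 := le_abs_self C
      have h5 : u * k ≤ u * -((u + v) * (|C| + 1)) := mul_le_mul_of_nonneg_left hk hu.le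
      have h6 : 1 * ((u + v) * (|C| + 1)) ≤ u * ((u + v) * (|C| + 1)) := by
        apply mul_le_mul_of_nonneg_right (by omega)
        have := abs_nonneg C
        positivity
      nlinarith
    exact le_of_mul_le_mul_left h3 huv
  · refine ⟨(u + v) * (|C| + 1), fun k hk => ?_⟩
    show v * k / (u + v) - k ≤ -C
    have a1 := h1 k
    have e : (u + v) * (v * k / (u + v) - k) = (u + v) * (v * k / (u + v)) - (u + v) * k := by ring
    have h3 : (u + v) * (v * k / (u + v) - k) ≤ (u + v) * -C := by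
      rw [e]
      have h4 := le_abs_self C
      have h5 : u * ((u + v) * (|C| + 1)) ≤ u * k := mul_le_mul_of_nonneg_left hk hu.le
      have h6 : 1 * ((u + v) * (|C| + 1)) ≤ u * ((u + v) * (|C| + 1)) := by
        apply mul_le_mul_of_nonneg_right (by omega)
        have := abs_nonneg C
        positivity
      nlinarith
    exact le_of_mul_le_mul_left h3 huv

/-- Among finitely many translates one is on the left of all those disjoint from it, and one is
on the right. -/
theorem PWalk.extreme (w : PWalk u v X Y H) (F : Finset (ℤ × ℤ)) (hF : F.Nonempty) :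
    (∃ d ∈ F, ∃ i, ∀ e ∈ F, Off X Y (X i + d.1 - e.1) (Y i + d.2 - e.2) →
      Sd u v Y H (X i + d.1 - e.1) (Y i + d.2 - e.2) = 1) ∧
    (∃ d ∈ F, ∃ i, ∀ e ∈ F, Off X Y (X i + d.1 - e.1) (Y i + d.2 - e.2) →
      Sd u v Y H (X i + d.1 - e.1) (Y i + d.2 - e.2) = 0) := by
  obtain ⟨Qx, Qy, hQ, hht, hl, hr⟩ := stairs u v w.hu w.hv
  have hu := w.hu
  have hv := w.hv
  -- the far ends
  have hL : ∀ p q, ∃ K, ∀ k ≤ K, Off X Y (Qx k - p) (Qy k - q) ∧
      Sd u v Y H (Qx k - p) (Qy k - q) = 1 := by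
    intro p q
    obtain ⟨C, hC, -⟩ := w.far (u + v + |u * p + v * q|)
    obtain ⟨K, hK⟩ := hl (C + q)
    refine ⟨K, fun k hk => ?_⟩
    have h1 := hK k hk
    have h2 := hht k
    have e : u * (Qx k - p) + v * (Qy k - q) = u * Qx k + v * Qy k - (u * p + v * q) := by ring
    have h3 := le_abs_self (u * p + v * q)
    have h4 := neg_abs_le (u * p + v * q)
    exact hC _ _ (by rw [e]; omega) (by rw [e]; omega) (by omega)
  have hR : ∀ p q, ∃ K, ∀ k, K ≤ k → Off X Y (Qx k - p) (Qy k - q) ∧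
      Sd u v Y H (Qx k - p) (Qy k - q) = 0 := by
    intro p q
    obtain ⟨C, -, hC⟩ := w.far (u + v + |u * p + v * q|)
    obtain ⟨K, hK⟩ := hr (C - q)
    refine ⟨K, fun k hk => ?_⟩
    have h1 := hK k hk
    have h2 := hht k
    have e : u * (Qx k - p) + v * (Qy k - q) = u * Qx k + v * Qy k - (u * p + v * q) := by ring
    have h3 := le_abs_self (u * p + v * q)
    have h4 := neg_abs_le (u * p + v * q)
    exact hC _ _ (by rw [e]; omega) (by rw [e]; omega) (by omega)
  have hQ1 : ∀ k, ∃ a b, Inv u v X Y H a b ∧ Qx (k + 1) = Qx k + a ∧ Qy (k + 1) = Qy k + b := by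
    intro k
    rcases hQ k with h | h
    · exact ⟨1, 0, w.inv10, h.1, by omega⟩
    · exact ⟨-0, -1, w.inv01.neg, by omega, by omega⟩
  have hhit : ∀ p q, ∃ k, ¬ Off X Y (Qx k - p) (Qy k - q) := by
    intro p q
    by_contra hc
    push Not at hc
    obtain ⟨K, hK⟩ := hL p q
    obtain ⟨K', hK'⟩ := hR p q
    have h1 : ∀ k, K ≤ k → Sd u v Y H (Qx k - p) (Qy k - q) = 1 := by
      intro k hk
      induction k, hk using Int.leInduction with
      | base => exact (hK K le_rfl).2
      | succ n hn ih =>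
        obtain ⟨a, b, hab, hx, hy⟩ := hQ1 n
        have h3 := hc (n + 1)
        rw [hx, hy, add_sub_right_comm, add_sub_right_comm] at h3 ⊢
        rw [← hab _ _ (hc n) h3, ih]
    have h2 := h1 (max K K') (le_max_left _ _)
    rw [(hK' _ (le_max_right _ _)).2] at h2
    exact absurd h2 (by decide)
  refine ⟨first_hit Qx Qy hQ1 1 hL hhit F hF, ?_⟩
  refine first_hit (fun k => Qx (-k)) (fun k => Qy (-k)) (fun k => ?_) 0 (fun p q => ?_)
    (fun p q => ?_) F hF
  · obtain ⟨a, b, hab, hx, hy⟩ := hQ1 (-(k + 1))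
    rw [show -(k + 1) + 1 = -k by ring] at hx hy
    exact ⟨-a, -b, hab.neg, by omega, by omega⟩
  · obtain ⟨K, hK⟩ := hR p q
    exact ⟨-K, fun k hk => hK (-k) (by omega)⟩
  · obtain ⟨k, hk⟩ := hhit p q
    refine ⟨-k, ?_⟩
    rwa [neg_neg]

/-- The translate by `(p, q)` lies on the left of the walk, without common vertex. -/
def Left (u v : ℤ) (X Y H : ℤ → ℤ) (p q : ℤ) : Prop :=
  Free X Y p q ∧ ∀ i, Sd u v Y H (X i + p) (Y i + q) = 1

theorem PWalk.right_of_not (w : PWalk u v X Y H) {p q : ℤ} (hf : Free X Y p q)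
    (h : ¬ Left u v X Y H p q) : ∀ i, Sd u v Y H (X i + p) (Y i + q) = 0 := by
  have h1 : ∀ z : ZMod 2, z ≠ 1 → z = 0 := by decide
  have h2 : Sd u v Y H (X 0 + p) (Y 0 + q) = 0 := by
    apply h1
    intro hc
    exact h ⟨hf, fun i => by rw [w.const hf i, hc]⟩
  intro i
  rw [w.const hf i, h2]

/-- Exactly one of two disjoint translates is on the left of the other. -/
theorem PWalk.one_left (w : PWalk u v X Y H) {p q : ℤ} (hf : Free X Y p q) :
    (Left u v X Y H p q ∨ Left u v X Y H (-p) (-q)) ∧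
      ¬ (Left u v X Y H p q ∧ Left u v X Y H (-p) (-q)) := by
  obtain ⟨⟨d, hd, i, hi⟩, ⟨d', hd', i', hi'⟩⟩ :=
    w.extreme {((0 : ℤ), (0 : ℤ)), (p, q)} ⟨_, Finset.mem_insert_self _ _⟩
  rw [Finset.mem_insert, Finset.mem_singleton] at hd hd'
  have m0 : ((0 : ℤ), (0 : ℤ)) ∈ ({((0 : ℤ), (0 : ℤ)), (p, q)} : Finset (ℤ × ℤ)) :=
    Finset.mem_insert_self _ _
  have m1 : (p, q) ∈ ({((0 : ℤ), (0 : ℤ)), (p, q)} : Finset (ℤ × ℤ)) :=
    Finset.mem_insert_of_mem (Finset.mem_singleton_self _)
  constructor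
  · rcases hd with rfl | rfl
    · right
      have h1 := hi (p, q) m1
      simp only [add_zero] at h1
      rw [sub_eq_add_neg, sub_eq_add_neg] at h1
      have h2 := h1 (hf.neg i)
      exact ⟨hf.neg, fun j => by rw [w.const hf.neg j, ← w.const hf.neg i, h2]⟩
    · left
      have h1 := hi (0, 0) m0
      simp only [sub_zero] at h1
      have h2 := h1 (hf i)
      exact ⟨hf, fun j => by rw [w.const hf j, ← w.const hf i, h2]⟩
  · rintro ⟨a1, a2⟩
    rcases hd' with rfl | rfl
    · have h1 := hi' (p, q) m1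
      simp only [add_zero] at h1
      rw [sub_eq_add_neg, sub_eq_add_neg] at h1
      have h2 := h1 (hf.neg i')
      rw [a2.2 i'] at h2
      exact absurd h2 (by decide)
    · have h1 := hi' (0, 0) m0
      simp only [sub_zero] at h1
      have h2 := h1 (hf i')
      rw [a1.2 i'] at h2
      exact absurd h2 (by decide)

theorem PWalk.neg_right (w : PWalk u v X Y H) {p q : ℤ} (h : Left u v X Y H p q) (i : ℤ) :
    Sd u v Y H (X i + -p) (Y i + -q) = 0 :=
  w.right_of_not h.1.neg (fun hc => (w.one_left h.1).2 ⟨h, hc⟩) i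

theorem PWalk.left_add (w : PWalk u v X Y H) {p q p' q' : ℤ} (h1 : Left u v X Y H p q)
    (h2 : Left u v X Y H p' q') : Left u v X Y H (p + p') (q + q') := by
  have hf : Free X Y (p + p') (q + q') := by
    intro i j hj
    have h3 := w.neg_right h1 j
    rw [hj.1, hj.2, show X i + (p + p') + -p = X i + p' by ring,
      show Y i + (q + q') + -q = Y i + q' by ring, h2.2 i] at h3
    exact absurd h3 (by decide)
  obtain ⟨⟨d, hd, i, hi⟩, -⟩ := w.extreme {((0 : ℤ), (0 : ℤ)), (p, q), (p + p', q + q')}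
    ⟨_, Finset.mem_insert_self _ _⟩
  rw [Finset.mem_insert, Finset.mem_insert, Finset.mem_singleton] at hd
  rcases hd with rfl | rfl | rfl
  · exfalso
    have h3 := hi (p, q) (by simp)
    simp only [add_zero] at h3
    rw [sub_eq_add_neg, sub_eq_add_neg] at h3
    have h4 := h3 (h1.1.neg i)
    rw [w.neg_right h1 i] at h4
    exact absurd h4 (by decide)
  · exfalso
    have h3 := hi (p + p', q + q') (by simp)
    simp only at h3
    rw [show X i + p - (p + p') = X i + -p' by ring,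
      show Y i + q - (q + q') = Y i + -q' by ring] at h3
    have h4 := h3 (h2.1.neg i)
    rw [w.neg_right h2 i] at h4
    exact absurd h4 (by decide)
  · have h3 := hi (0, 0) (by simp)
    simp only [sub_zero] at h3
    have h4 := h3 (hf i)
    exact ⟨hf, fun j => by rw [w.const hf j, ← w.const hf i, h4]⟩

theorem PWalk.left_add_move (w : PWalk u v X Y H) {p q p' q' a b : ℤ}
    (h1 : Left u v X Y H p q) (h2 : Left u v X Y H p' q') (hab : Inv u v X Y H a b) :
    Left u v X Y H (p + p' + a) (q + q' + b) := by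
  have h3 := w.left_add h1 h2
  have hf : Free X Y (p + p' + a) (q + q' + b) := by
    intro i j hj
    have h4 := w.neg_right h1 j
    have e1 : X j + -p = X i + p' + a := by omega
    have e2 : Y j + -q = Y i + q' + b := by omega
    have h5 := h1.1.neg j
    rw [e1, e2] at h4 h5
    rw [← hab _ _ (h2.1 i) h5, h2.2 i] at h4
    exact absurd h4 (by decide)
  refine ⟨hf, fun i => ?_⟩
  have h6 := hf i
  rw [show X i + (p + p' + a) = X i + (p + p') + a by ring,
    show Y i + (q + q' + b) = Y i + (q + q') + b by ring] at h6 ⊢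
  rw [← hab _ _ (h3.1 i) h6]
  exact h3.2 i

theorem not_left_zero : ¬ Left u v X Y H 0 0 := by
  intro h
  exact h.1 0 0 ⟨by omega, by omega⟩

theorem PWalk.left_nsmul (w : PWalk u v X Y H) {p q : ℤ} (h : Left u v X Y H p q) (n : ℕ) :
    Left u v X Y H ((n + 1 : ℕ) * p) ((n + 1 : ℕ) * q) := by
  induction n with
  | zero => simpa using h
  | succ n ih =>
    have h1 := w.left_add ih h
    rw [show ((n + 1 + 1 : ℕ) : ℤ) * p = (n + 1 : ℕ) * p + p by push_cast; ring,
      show ((n + 1 + 1 : ℕ) : ℤ) * q = (n + 1 : ℕ) * q + q by push_cast; ring]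
    exact h1

theorem PWalk.left_nsmul_move (w : PWalk u v X Y H) {p q a b : ℤ} (h : Left u v X Y H p q)
    (hab : Inv u v X Y H a b) (n : ℕ) :
    Left u v X Y H ((n + 1 : ℕ) * p + n * a) ((n + 1 : ℕ) * q + n * b) := by
  induction n with
  | zero => simpa using h
  | succ n ih =>
    have h1 := w.left_add_move ih h hab
    rw [show ((n + 1 + 1 : ℕ) : ℤ) * p + ((n + 1 : ℕ) : ℤ) * a =
        ((n + 1 : ℕ) : ℤ) * p + n * a + p + a by push_cast; ring,
      show ((n + 1 + 1 : ℕ) : ℤ) * q + ((n + 1 : ℕ) : ℤ) * b =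
        ((n + 1 : ℕ) : ℤ) * q + n * b + q + b by push_cast; ring]
    exact h1

end Pool.Agent.H41.PC
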