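import Mathlib
import Pool.Agent.H41.PC.Sides

/-!
# The linear form of a proper lattice walk and its Bohr set
-/

set_option autoImplicit false

namespace Pool.Agent.H41.PC

open Filter

variable {u v : ℤ} {X Y H : ℤ → ℤ}

theorem PWalk.left_smul (w : PWalk u v X Y H) {p q : ℤ} (h : Left u v X Y H p q) (m : ℤ)
    (hm : 0 < m) : Left u v X Y H (m * p) (m * q) := by
  have h1 := w.left_nsmul h (m - 1).toNat
  have e : (((m - 1).toNat + 1 : ℕ) : ℤ) = m := by omega
  rwa [e] at h1

/-- A left translation of height zero moves upwards, if `(-v', u')` is a left translation. -/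
theorem PWalk.no_bad (w : PWalk u v X Y H) {u' v' g : ℤ} (hg : 0 < g) (hu' : u = g * u')
    (hv' : v = g * v') (hl : Left u v X Y H (-v') u') {P Q : ℤ} (h : Left u v X Y H P Q)
    (h0 : u * P + v * Q = 0) : 0 < Q := by
  have hu := w.hu
  have hu'0 : 0 < u' := by
    rw [hu'] at hu
    exact (mul_pos_iff_of_pos_left hg).1 hu
  by_contra hc
  push Not at hc
  have e0 : u' * P + v' * Q = 0 := by
    have h1 : g * (u' * P + v' * Q) = 0 := by
      rw [hu', hv'] at h0
      linear_combination h0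
    exact (mul_eq_zero.1 h1).resolve_left hg.ne'
  have h1 := w.left_smul h u' hu'0
  rcases eq_or_lt_of_le hc with h2 | h2
  · rw [h2, mul_zero] at h1 e0
    rw [add_zero] at e0
    rw [e0] at h1
    exact not_left_zero h1
  · have h3 := w.left_add h1 (w.left_smul hl (-Q) (by omega))
    have e1 : u' * P + -Q * -v' = 0 := by linear_combination e0
    have e2 : u' * Q + -Q * u' = 0 := by ring
    rw [e1, e2] at h3
    exact not_left_zero h3

/-- If a multiple `n₀` of `g` is no difference of heights, `(-v', u')` is a left translation and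
there are left translations of positive and of negative height. -/
theorem PWalk.exists_left (w : PWalk u v X Y H) {u' v' g p0 q0 : ℤ} (hg : 0 < g)
    (hu' : u = g * u') (hv' : v = g * v') (hbez : g = u * p0 + v * q0) (m0 : ℤ)
    (hn0 : ∀ i j, g * m0 ≠ H j - H i) :
    Left u v X Y H (-v') u' ∧ (∃ p q, Left u v X Y H p q ∧ 0 < u * p + v * q) ∧
      ∃ p q, Left u v X Y H p q ∧ u * p + v * q < 0 := by
  have hu := w.hu
  have hu'0 : 0 < u' := by
    rw [hu'] at hu
    exact (mul_pos_iff_of_pos_left hg).1 hu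
  have e3 : u * v' = v * u' := by rw [hu', hv']; ring
  have hht : ∀ k, u * (m0 * p0 - k * v') + v * (m0 * q0 + k * u') = g * m0 := by
    intro k
    linear_combination (-k) * e3 - m0 * hbez
  have hfree : ∀ k, Free X Y (m0 * p0 - k * v') (m0 * q0 + k * u') := by
    intro k i j hj
    apply hn0 i j
    rw [w.hH j, w.hH i, hj.1, hj.2]
    linear_combination -(hht k)
  obtain ⟨C, hC1, hC2⟩ := w.far |H 0 + g * m0|
  have hpt : ∀ k, u * (X 0 + (m0 * p0 - k * v')) + v * (Y 0 + (m0 * q0 + k * u')) =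
      H 0 + g * m0 := by
    intro k
    rw [w.hH 0]
    linear_combination hht k
  have hlarge : ∀ k, |C| + |Y 0 + m0 * q0| ≤ k →
      Left u v X Y H (m0 * p0 - k * v') (m0 * q0 + k * u') := by
    intro k hk
    have h1 := (hC1 (X 0 + (m0 * p0 - k * v')) (Y 0 + (m0 * q0 + k * u'))
      (by rw [hpt]; exact neg_abs_le _) (by rw [hpt]; exact le_abs_self _) (by
        have := neg_abs_le (Y 0 + m0 * q0)
        have := le_abs_self C
        have := abs_nonneg C
        have := abs_nonneg (Y 0 + m0 * q0)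
        nlinarith)).2
    exact ⟨hfree k, fun i => by rw [w.const (hfree k) i]; exact h1⟩
  have hsmall : ∀ k, k ≤ -(|C| + |Y 0 + m0 * q0|) →
      ¬ Left u v X Y H (m0 * p0 - k * v') (m0 * q0 + k * u') := by
    intro k hk hl
    have h1 := (hC2 (X 0 + (m0 * p0 - k * v')) (Y 0 + (m0 * q0 + k * u'))
      (by rw [hpt]; exact neg_abs_le _) (by rw [hpt]; exact le_abs_self _) (by
        have := le_abs_self (Y 0 + m0 * q0)
        have := le_abs_self C
        have := abs_nonneg C
        have := abs_nonneg (Y 0 + m0 * q0)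
        nlinarith)).2
    have h2 := hl.2 0
    unfold Sd at h2
    rw [h1] at h2
    exact absurd h2 (by decide)
  obtain ⟨k, hk, hmax⟩ := Int.exists_greatest_of_bdd
    (P := fun k => ¬ Left u v X Y H (m0 * p0 - k * v') (m0 * q0 + k * u'))
    ⟨|C| + |Y 0 + m0 * q0|, fun k hk => by
      by_contra hc
      exact hk (hlarge k (by omega))⟩ ⟨_, hsmall _ le_rfl⟩
  have hl1 : Left u v X Y H (m0 * p0 - (k + 1) * v') (m0 * q0 + (k + 1) * u') := by
    by_contra hc
    have := hmax _ hc
    omega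
  have hl2 : Left u v X Y H (-(m0 * p0 - k * v')) (-(m0 * q0 + k * u')) :=
    (w.one_left (hfree k)).1.resolve_left hk
  have h1 := w.left_add hl1 hl2
  have e1 : m0 * p0 - (k + 1) * v' + -(m0 * p0 - k * v') = -v' := by ring
  have e2 : m0 * q0 + (k + 1) * u' + -(m0 * q0 + k * u') = u' := by ring
  rw [e1, e2] at h1
  have f1 := hht (k + 1)
  have f2 : u * -(m0 * p0 - k * v') + v * -(m0 * q0 + k * u') = -(g * m0) := by
    linear_combination -(hht k)
  have hne : g * m0 ≠ 0 := by
    have := hn0 0 0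
    rwa [sub_self] at this
  refine ⟨h1, ?_, ?_⟩
  · rcases lt_or_gt_of_ne hne with h | h
    · exact ⟨_, _, hl2, by rw [f2]; omega⟩
    · exact ⟨_, _, hl1, by rw [f1]; omega⟩
  · rcases lt_or_gt_of_ne hne with h | h
    · exact ⟨_, _, hl1, by rw [f1]; omega⟩
    · exact ⟨_, _, hl2, by rw [f2]; omega⟩

theorem PWalk.slope (w : PWalk u v X Y H) {u' v' g : ℤ} (hg : 0 < g) (hu' : u = g * u')
    (hv' : v = g * v') (hl : Left u v X Y H (-v') u')
    (hpos : ∃ p q, Left u v X Y H p q ∧ 0 < u * p + v * q)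
    (hneg : ∃ p q, Left u v X Y H p q ∧ u * p + v * q < 0) :
    ∃ a : ℝ, ∀ p q : ℤ, Left u v X Y H p q → a * (u * p + v * q) ≤ g * q := by
  have hgr : (0 : ℝ) < g := by exact_mod_cast hg
  set Lo : Set ℝ := {r | ∃ p q : ℤ, Left u v X Y H p q ∧ u * p + v * q < 0 ∧
    r = g * q / (u * p + v * q)} with hLo
  set Up : Set ℝ := {r | ∃ p q : ℤ, Left u v X Y H p q ∧ 0 < u * p + v * q ∧
    r = g * q / (u * p + v * q)} with hUp
  have hLon : Lo.Nonempty := by
    obtain ⟨p, q, h1, h2⟩ := hneg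
    exact ⟨_, p, q, h1, h2, rfl⟩
  have hUpn : Up.Nonempty := by
    obtain ⟨p, q, h1, h2⟩ := hpos
    exact ⟨_, p, q, h1, h2, rfl⟩
  have hle : ∀ r ∈ Lo, ∀ s ∈ Up, r ≤ s := by
    rintro r ⟨p2, q2, hl2, hf2, rfl⟩ s ⟨p1, q1, hl1, hf1, rfl⟩
    have h3 := w.left_add (w.left_smul hl1 (-(u * p2 + v * q2)) (by omega))
      (w.left_smul hl2 (u * p1 + v * q1) hf1)
    have hQ := w.no_bad hg hu' hv' hl h3 (by ring)
    have hQr : (0 : ℝ) < -(u * p2 + v * q2) * q1 + (u * p1 + v * q1) * q2 := by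
      exact_mod_cast hQ
    have hf1r : (0 : ℝ) < u * p1 + v * q1 := by exact_mod_cast hf1
    have hf2r : (u * p2 + v * q2 : ℝ) < 0 := by exact_mod_cast hf2
    rw [← neg_div_neg_eq ((g : ℝ) * (q2 : ℝ)), div_le_div_iff₀ (by linarith) hf1r]
    nlinarith
  obtain ⟨a, ha1, ha2⟩ := exists_between_of_forall_le hLon hUpn hle
  refine ⟨a, fun p q hl' => ?_⟩
  rcases lt_trichotomy (u * p + v * q) 0 with hf | hf | hf
  · have h1 : g * q / (u * p + v * q) ≤ a := ha1 ⟨p, q, hl', hf, rfl⟩
    have hfr : (u * p + v * q : ℝ) < 0 := by exact_mod_cast hf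
    rwa [div_le_iff_of_neg hfr] at h1
  · have hfr : (u * p + v * q : ℝ) = 0 := by exact_mod_cast hf
    rw [hfr, mul_zero]
    have hq := w.no_bad hg hu' hv' hl hl' hf
    have hqr : (0 : ℝ) < q := by exact_mod_cast hq
    positivity
  · have h1 : a ≤ g * q / (u * p + v * q) := ha2 ⟨p, q, hl', hf, rfl⟩
    have hfr : (0 : ℝ) < u * p + v * q := by exact_mod_cast hf
    rwa [le_div_iff₀ hfr] at h1

/-- The linear form is at least its value at every admissible move, on all left translations. -/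
theorem PWalk.margin (w : PWalk u v X Y H) (a b : ℝ)
    (hpos : ∀ p q : ℤ, Left u v X Y H p q → 0 ≤ b * q - a * p) {p q α β : ℤ}
    (hl : Left u v X Y H p q) (hab : Inv u v X Y H α β) : |b * β - a * α| ≤ b * q - a * p := by
  have key : ∀ α β : ℤ, Inv u v X Y H α β → -(b * β - a * α) ≤ b * q - a * p := by
    intro α β hab
    by_contra hc
    push Not at hc
    obtain ⟨n, hn⟩ := exists_nat_gt ((b * q - a * p) / (-(b * β - a * α) - (b * q - a * p)))
    rw [div_lt_iff₀ (by linarith)] at hn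
    have h1 := hpos _ _ (w.left_nsmul_move hl hab n)
    push_cast at h1
    nlinarith
  rw [abs_le]
  constructor
  · have h1 := key α β hab
    linarith
  · have h1 := key (-α) (-β) hab.neg
    push_cast at h1
    linarith

/-- From the linear form to the Bohr set. -/
theorem bohr_of_form (u v : ℤ) (hu : 0 < u) (a b c : ℝ) (D : Set ℤ)
    (hab : a * v + b * u = Int.gcd u v)
    (hS : ∀ p q : ℤ, |b * q - a * p| < c → u * p + v * q ∈ D) :
    ∃ θ : ℝ, (∃ k : ℤ, u * θ + a = k) ∧ (∃ k : ℤ, v * θ - b = k) ∧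
      ∀ n : ℤ, (Int.gcd u v : ℤ) ∣ n → |n * θ - round (n * θ)| < c → n ∈ D := by
  have hgpos : (0 : ℤ) < (Int.gcd u v : ℤ) := by
    exact_mod_cast Int.gcd_pos_of_ne_zero_left v hu.ne'
  have hgr : (0 : ℝ) < (Int.gcd u v : ℝ) := by exact_mod_cast hgpos
  set g : ℝ := (Int.gcd u v : ℝ) with hg
  set p0 : ℤ := Int.gcdA u v with hp0
  set q0 : ℤ := Int.gcdB u v with hq0
  have hbez : (Int.gcd u v : ℤ) = u * p0 + v * q0 := Int.gcd_eq_gcd_ab u v
  have hbezr : g = u * p0 + v * q0 := by
    rw [hg]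
    exact_mod_cast congrArg (fun z : ℤ => (z : ℝ)) hbez
  obtain ⟨u', hu'⟩ : (Int.gcd u v : ℤ) ∣ u := Int.gcd_dvd_left u v
  obtain ⟨v', hv'⟩ : (Int.gcd u v : ℤ) ∣ v := Int.gcd_dvd_right u v
  have hu'r : (u : ℝ) = g * u' := by
    rw [hg]
    exact_mod_cast congrArg (fun z : ℤ => (z : ℝ)) hu'
  have hv'r : (v : ℝ) = g * v' := by
    rw [hg]
    exact_mod_cast congrArg (fun z : ℤ => (z : ℝ)) hv'
  have hab' : a * v' + b * u' = 1 := by
    have h1 : g * (a * v' + b * u') = g * 1 := by
      rw [hu'r, hv'r] at hab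
      linear_combination hab
    exact mul_left_cancel₀ hgr.ne' h1
  refine ⟨(b * q0 - a * p0) / g, ⟨q0, ?_⟩, ⟨-p0, ?_⟩, ?_⟩
  · field_simp
    linear_combination a * hbezr + (q0 : ℝ) * hab
  · field_simp
    push_cast
    linear_combination (-b) * hbezr - (p0 : ℝ) * hab
  · rintro n ⟨m, rfl⟩ hn
    set r : ℤ := round (((Int.gcd u v * m : ℤ) : ℝ) * ((b * q0 - a * p0) / g)) with hr
    have hsh := hS (m * p0 + r * v') (m * q0 - r * u') (by
      have e : b * ((m * q0 - r * u' : ℤ) : ℝ) - a * ((m * p0 + r * v' : ℤ) : ℝ) =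
          ((Int.gcd u v * m : ℤ) : ℝ) * ((b * q0 - a * p0) / g) - r := by
        push_cast
        rw [← hg]
        field_simp
        linear_combination (-(r : ℝ)) * hab'
      rw [e]
      exact hn)
    have e3 : u * v' = v * u' := by
      calc u * v' = (Int.gcd u v : ℤ) * u' * v' := by rw [← hu']
        _ = (Int.gcd u v : ℤ) * v' * u' := by ring
        _ = v * u' := by rw [← hv']
    have e4 : u * (m * p0 + r * v') + v * (m * q0 - r * u') = (Int.gcd u v : ℤ) * m := by
      rw [hbez]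
      linear_combination r * e3
    rwa [e4] at hsh

/-- The Bohr set in the differences of the heights: `c` is a radius which is, for the form of the
walk, at most the value at some admissible move. -/
theorem PWalk.bohr (w : PWalk u v X Y H) (c : ℝ → ℝ → ℝ)
    (hc : ∀ a b : ℝ, ∃ α β : ℤ, Inv u v X Y H α β ∧ c a b ≤ |b * β - a * α|) :
    ∃ θ a b : ℝ, a * v + b * u = Int.gcd u v ∧ (∃ k : ℤ, u * θ + a = k) ∧
      (∃ k : ℤ, v * θ - b = k) ∧
      ∀ n : ℤ, (Int.gcd u v : ℤ) ∣ n → |n * θ - round (n * θ)| < c a b →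
        ∃ i j, n = H j - H i := by
  have hu := w.hu
  have hgpos : (0 : ℤ) < (Int.gcd u v : ℤ) := by
    exact_mod_cast Int.gcd_pos_of_ne_zero_left v hu.ne'
  have hur : (0 : ℝ) < u := by exact_mod_cast hu
  by_cases hall : ∀ m : ℤ, ∃ i j, (Int.gcd u v : ℤ) * m = H j - H i
  · obtain ⟨θ, h1, h2, -⟩ := bohr_of_form u v hu 0 ((Int.gcd u v : ℝ) / u) 0 Set.univ
      (by field_simp; ring) (fun p q _ => Set.mem_univ _)
    refine ⟨θ, 0, (Int.gcd u v : ℝ) / u, by field_simp; ring, h1, h2, ?_⟩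
    rintro n ⟨m, rfl⟩ -
    exact hall m
  · push Not at hall
    obtain ⟨m0, hm0⟩ := hall
    obtain ⟨u', hu'⟩ : (Int.gcd u v : ℤ) ∣ u := Int.gcd_dvd_left u v
    obtain ⟨v', hv'⟩ : (Int.gcd u v : ℤ) ∣ v := Int.gcd_dvd_right u v
    obtain ⟨hl, hp, hn⟩ := w.exists_left hgpos hu' hv' (Int.gcd_eq_gcd_ab u v) m0 hm0
    obtain ⟨a, ha⟩ := w.slope hgpos hu' hv' hl hp hn
    have hpos : ∀ p q : ℤ, Left u v X Y H p q →
        0 ≤ ((Int.gcd u v : ℝ) - a * v) / u * q - a * p := by
      intro p q h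
      have h3 := ha p q h
      rw [show (((Int.gcd u v : ℕ) : ℤ) : ℝ) = (Int.gcd u v : ℝ) by norm_cast] at h3
      have e : ((Int.gcd u v : ℝ) - a * v) / u * q - a * p =
          ((Int.gcd u v : ℝ) * q - a * (u * p + v * q)) / u := by
        field_simp
        ring
      rw [e]
      apply div_nonneg _ hur.le
      linarith
    set b : ℝ := ((Int.gcd u v : ℝ) - a * v) / u with hb
    have hab : a * v + b * u = Int.gcd u v := by
      rw [hb]
      field_simp
      ring
    obtain ⟨α, β, hinv, hcle⟩ := hc a b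
    obtain ⟨θ, h1, h2, h3⟩ := bohr_of_form u v hu a b (c a b) {n | ∃ i j, n = H j - H i} hab (by
      intro p q hlt
      by_contra hno
      have hf : Free X Y p q := by
        intro i j hj
        apply hno
        refine ⟨i, j, ?_⟩
        rw [w.hH j, w.hH i, hj.1, hj.2]
        ring
      rcases (w.one_left hf).1 with h | h
      · have h4 := w.margin a b hpos h hinv
        have h5 := le_abs_self (b * q - a * p)
        linarith
      · have h4 := w.margin a b hpos h hinv
        push_cast at h4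
        have h5 := neg_abs_le (b * q - a * p)
        linarith)
    exact ⟨θ, a, b, hab, h1, h2, h3⟩

end Pool.Agent.H41.PC
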