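import Mathlib

/-!
# Connected sets of integers: rays and limits
-/

set_option autoImplicit false

namespace Pool.Agent.H41.PC

open Filter

/-- `x` and `y` are in `B` and their distance is in `D`. -/
def Adj (D B : Set ℤ) (x y : ℤ) : Prop := x ∈ B ∧ y ∈ B ∧ |y - x| ∈ D

/-- `x` and `y` are joined by a walk in `B`. -/
def Conn (D B : Set ℤ) : ℤ → ℤ → Prop := Relation.ReflTransGen (Adj D B)

variable {D B : Set ℤ}

theorem Adj.symm {x y : ℤ} (h : Adj D B x y) : Adj D B y x :=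
  ⟨h.2.1, h.1, by rw [abs_sub_comm]; exact h.2.2⟩

theorem Conn.symm {x y : ℤ} (h : Conn D B x y) : Conn D B y x := by
  induction h with
  | refl => exact Relation.ReflTransGen.refl
  | tail _ hab ih => exact Relation.ReflTransGen.head hab.symm ih

theorem Conn.mono {B' : Set ℤ} (hB : B ⊆ B') {x y : ℤ} (h : Conn D B x y) : Conn D B' x y := by
  induction h with
  | refl => exact Relation.ReflTransGen.refl
  | tail _ hab ih => exact Relation.ReflTransGen.tail ih ⟨hB hab.1, hB hab.2.1, hab.2.2⟩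

theorem Conn.trans {x y z : ℤ} (h : Conn D B x y) (h' : Conn D B y z) : Conn D B x z :=
  Relation.ReflTransGen.trans h h'

theorem Conn.neg {x y : ℤ} (h : Conn D B x y) : Conn D {t | -t ∈ B} (-x) (-y) := by
  induction h with
  | refl => exact Relation.ReflTransGen.refl
  | tail _ hab ih =>
    refine Relation.ReflTransGen.tail ih ⟨by simpa using hab.1, by simpa using hab.2.1, ?_⟩
    rw [neg_sub_neg, abs_sub_comm]
    exact hab.2.2

theorem Conn.translate (c : ℤ) {x y : ℤ} (h : Conn D B x y) :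
    Conn D {t | t + c ∈ B} (x - c) (y - c) := by
  induction h with
  | refl => exact Relation.ReflTransGen.refl
  | tail _ hab ih =>
    refine Relation.ReflTransGen.tail ih ⟨by simpa using hab.1, by simpa using hab.2.1, ?_⟩
    rw [sub_sub_sub_cancel_right]
    exact hab.2.2

/-- The last exit from `(-∞, K]`. -/
theorem last_exit {M : ℤ} (hD : ∀ d ∈ D, d ≤ M) (K : ℤ) {z x : ℤ} (h : Conn D B z x)
    (hx : K < x) : (K < z ∧ Conn D (B ∩ Set.Ioi K) z x) ∨
      ∃ q, K < q ∧ q ≤ K + M ∧ Conn D B z q ∧ Conn D (B ∩ Set.Ioi K) q x := by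
  induction h using Relation.ReflTransGen.head_induction_on with
  | refl => exact Or.inl ⟨hx, Relation.ReflTransGen.refl⟩
  | @head a b hab hbx ih =>
    rcases ih with ⟨h1, h2⟩ | ⟨q, h1, h2, h3, h4⟩
    · by_cases ha : K < a
      · exact Or.inl ⟨ha, Relation.ReflTransGen.head ⟨⟨hab.1, ha⟩, ⟨hab.2.1, h1⟩, hab.2.2⟩ h2⟩
      · refine Or.inr ⟨b, h1, ?_, Relation.ReflTransGen.single hab, h2⟩
        have h5 := hD _ hab.2.2
        have h6 := le_abs_self (b - a)
        omega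
    · exact Or.inr ⟨q, h1, h2, Relation.ReflTransGen.head hab h3, h4⟩

theorem pigeon (F : Finset ℤ) (Q : ℤ → ℕ → Prop) (anti : ∀ q n m, n ≤ m → Q q m → Q q n)
    (h : ∀ n, ∃ q ∈ F, Q q n) : ∃ q ∈ F, ∀ n, Q q n := by
  by_contra hc
  push Not at hc
  choose! N hN using hc
  obtain ⟨q, hq, h1⟩ := h (F.sup N)
  exact hN q hq (anti q _ _ (Finset.le_sup hq) h1)

/-- The graph on `B`. -/
def gr (D B : Set ℤ) : SimpleGraph ℤ where
  Adj x y := x ≠ y ∧ Adj D B x y
  symm := ⟨fun _ _ h => ⟨h.1.symm, h.2.symm⟩⟩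
  loopless := ⟨fun _ h => h.1 rfl⟩

theorem Conn.reachable {x y : ℤ} (h : Conn D B x y) : (gr D B).Reachable x y := by
  induction h with
  | refl => exact SimpleGraph.Reachable.refl _
  | @tail a b _ hab ih =>
    by_cases hne : a = b
    · rw [← hne]; exact ih
    · exact ih.trans (SimpleGraph.Adj.reachable ⟨hne, hab⟩)

theorem walk_bound {M : ℤ} (hD : ∀ d ∈ D, d ≤ M) {x y : ℤ} (w : (gr D B).Walk x y) :
    |y - x| ≤ M * w.length := by
  induction w with
  | nil => simp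
  | cons h p ih =>
    rename_i a b c
    have h1 := hD _ h.2.2.2
    have h2 : |c - a| ≤ |c - b| + |b - a| := abs_sub_le _ _ _
    rw [SimpleGraph.Walk.length_cons]
    push_cast
    linarith

/-- A simple ray from a point which is joined to points arbitrarily far away. -/
theorem exists_ray {M : ℤ} (hD : ∀ d ∈ D, d ≤ M) (hM : 0 < M) {p : ℤ}
    (h : ∀ n : ℕ, ∃ x, (n : ℤ) ≤ x ∧ Conn D B p x) :
    ∃ L : ℕ → ℤ, L 0 = p ∧ (∀ i, Adj D B (L i) (L (i + 1))) ∧ Function.Injective L := by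
  have h1 : ∀ n : ℕ, ∃ f : ℕ → ℤ, f 0 = p ∧ (∀ i < n, Adj D B (f i) (f (i + 1))) ∧
      Set.InjOn f {i | i ≤ n} := by
    intro n
    obtain ⟨x, hx, hc⟩ := h (n * M + |p|).toNat
    obtain ⟨w, hw⟩ := hc.reachable.exists_isPath
    have h2 := walk_bound hD w
    have h3 : n ≤ w.length := by
      by_contra hlt
      push Not at hlt
      have h4 := le_abs_self (x - p)
      have h5 := le_abs_self p
      have h6 := neg_abs_le p
      have h7 : M * (w.length : ℤ) ≤ M * n := by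
        apply mul_le_mul_of_nonneg_left _ hM.le
        exact_mod_cast hlt.le
      have h8 : M * ((w.length : ℤ) + 1) ≤ M * n := by
        apply mul_le_mul_of_nonneg_left _ hM.le
        exact_mod_cast hlt
      have h9 : (n : ℤ) * M + |p| ≤ x := by
        have : 0 ≤ (n : ℤ) * M + |p| := by positivity
        omega
      nlinarith
    refine ⟨w.getVert, w.getVert_zero, fun i hi => ?_, fun i hi j hj hij => ?_⟩
    · exact (w.adj_getVert_succ (lt_of_lt_of_le hi h3)).2
    · exact hw.getVert_injOn (le_trans hi h3) (le_trans hj h3) hij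
  choose f hf0 hf1 hf2 using h1
  have hb : ∀ (n i : ℕ), i ≤ n → |f n i - p| ≤ M * i := by
    intro n i
    induction i with
    | zero => intro _; simp [hf0]
    | succ i ih =>
      intro hi
      have h2 := ih (by omega)
      have h3 := hD _ (hf1 n i (by omega)).2.2
      have h4 : |f n (i + 1) - p| ≤ |f n (i + 1) - f n i| + |f n i - p| := abs_sub_le _ _ _
      push_cast
      linarith
  have hge : ∀ k : ℕ, ∀ᶠ N in (hyperfilter ℕ : Filter ℕ), k ≤ N := by
    intro k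
    have h2 : ∀ᶠ N in atTop, k ≤ N := eventually_ge_atTop k
    rw [← Nat.cofinite_eq_atTop] at h2
    exact hyperfilter_le_cofinite h2
  have hex : ∀ i : ℕ, ∃ z : ℤ, ∀ᶠ N in (hyperfilter ℕ : Filter ℕ), f N i = z := by
    intro i
    have h2 : ∀ᶠ N in (hyperfilter ℕ : Filter ℕ),
        ∃ z ∈ (Finset.Icc (p - M * i) (p + M * i) : Set ℤ), f N i = z := by
      filter_upwards [hge i] with N hN
      refine ⟨_, ?_, rfl⟩
      have h3 := abs_le.1 (hb N i hN)
      rw [Finset.coe_Icc]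
      exact ⟨by linarith [h3.1], by linarith [h3.2]⟩
    obtain ⟨z, -, hz⟩ := (Ultrafilter.eventually_exists_mem_iff (Finset.finite_toSet _)).1 h2
    exact ⟨z, hz⟩
  choose L hL using hex
  refine ⟨L, ?_, fun i => ?_, fun i j hij => ?_⟩
  · obtain ⟨N, hN⟩ := (hL 0).exists
    rw [← hN, hf0]
  · obtain ⟨N, ⟨hN1, hN2⟩, hN3⟩ := (((hL i).and (hL (i + 1))).and (hge (i + 1))).exists
    rw [← hN1, ← hN2]
    exact hf1 N i (by omega)
  · obtain ⟨N, ⟨hN1, hN2⟩, hN3, hN4⟩ :=
      (((hL i).and (hL j)).and ((hge i).and (hge j))).exists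
    exact hf2 N hN3 hN4 (by rw [hN1, hN2, hij])

/-- There is a ray from `p` in `B` which tends to `+∞`. -/
def RayUp (D B : Set ℤ) (p : ℤ) : Prop :=
  ∃ R : ℕ → ℤ, R 0 = p ∧ (∀ i, Adj D B (R i) (R (i + 1))) ∧ Tendsto R atTop atTop

theorem RayUp.head {p q : ℤ} (h : Adj D B p q) (hq : RayUp D B q) : RayUp D B p := by
  obtain ⟨R, h0, h1, h2⟩ := hq
  refine ⟨fun i => Nat.casesOn i p R, rfl, fun i => ?_, ?_⟩
  · cases i with
    | zero =>
      show Adj D B p (R 0)
      rw [h0]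
      exact h
    | succ n => exact h1 n
  · rw [← tendsto_add_atTop_iff_nat 1]
    exact h2

theorem RayUp.of_conn {p q : ℤ} (h : Conn D B p q) (hq : RayUp D B q) : RayUp D B p := by
  induction h using Relation.ReflTransGen.head_induction_on with
  | refl => exact hq
  | head hab _ ih => exact RayUp.head hab ih

theorem rayUp {M : ℤ} (hD : ∀ d ∈ D, d ≤ M) (hM : 0 < M) {z : ℤ}
    (h : ∀ n : ℕ, ∃ x, (n : ℤ) ≤ x ∧ Conn D B z x) : RayUp D B z := by
  obtain ⟨q, hq, hn⟩ := pigeon (Finset.Ioc z (z + M))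
    (fun q n => Conn D B z q ∧ ∃ x, (n : ℤ) ≤ x ∧ Conn D (B ∩ Set.Ioi z) q x)
    (fun q n m hnm hm => by
      obtain ⟨h1, x, h2, h3⟩ := hm
      exact ⟨h1, x, by omega, h3⟩)
    (fun n => by
      obtain ⟨x, hx, hc⟩ := h (n + (z + 1).toNat)
      rcases last_exit hD z hc (by push_cast at hx; omega) with ⟨h1, -⟩ | ⟨q, h1, h2, h3, h4⟩
      · exact absurd h1 (lt_irrefl _)
      · exact ⟨q, Finset.mem_Ioc.2 ⟨h1, h2⟩, h3, x, by push_cast at hx; omega, h4⟩)
  obtain ⟨L, hL0, hL1, hL2⟩ := exists_ray hD hM (fun n => (hn n).2)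
  refine RayUp.of_conn (hn 0).1 ⟨L, hL0, fun i => ?_, ?_⟩
  · have h1 := hL1 i
    exact ⟨h1.1.1, h1.2.1.1, h1.2.2⟩
  · rw [tendsto_atTop]
    intro b
    have h1 : {i | L i < b}.Finite := by
      apply ((Set.finite_Ioo z b).preimage hL2.injOn).subset
      intro i hi
      exact ⟨(hL1 i).1.2, hi⟩
    have h2 := h1.compl_mem_cofinite
    rw [Nat.cofinite_eq_atTop] at h2
    filter_upwards [h2] with i hi
    exact not_lt.1 hi

/-- Two-sided walks from two rays. -/
theorem two_sided {p : ℤ} (h1 : RayUp D B p) (h2 : RayUp D {t | -t ∈ B} (-p)) :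
    ∃ s : ℤ → ℤ, (∀ i, s i ∈ B) ∧ (∀ i, |s (i + 1) - s i| ∈ D) ∧ Tendsto s atTop atTop ∧
      Tendsto s atBot atBot := by
  obtain ⟨R, hR0, hR1, hR2⟩ := h1
  obtain ⟨L, hL0, hL1, hL2⟩ := h2
  refine ⟨fun i => if 0 ≤ i then R i.toNat else -L (-i).toNat, fun i => ?_, fun i => ?_, ?_, ?_⟩
  · by_cases hi : 0 ≤ i
    · simp only [hi, if_true]
      exact (hR1 _).1
    · simp only [hi, if_false]
      exact (hL1 _).1
  · rcases lt_trichotomy i (-1) with hi | hi | hi
    · have e1 : ¬ (0 ≤ i) := by omega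
      have e2 : ¬ (0 ≤ i + 1) := by omega
      simp only [e1, e2, if_false]
      have e3 : (-i).toNat = (-(i + 1)).toNat + 1 := by omega
      rw [e3, neg_sub_neg]
      exact (hL1 _).2.2
    · subst hi
      have e1 : ¬ (0 ≤ (-1 : ℤ)) := by omega
      have e2 : (0 : ℤ) ≤ -1 + 1 := by omega
      simp only [e1, e2, if_false, if_true]
      have e3 : ((-1 : ℤ) + 1).toNat = 0 := by omega
      have e4 : (-(-1 : ℤ)).toNat = 0 + 1 := by omega
      have h3 := (hL1 0).2.2
      rw [hL0] at h3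
      rw [e3, e4, hR0]
      rwa [sub_neg_eq_add, add_comm, ← sub_neg_eq_add]
    · have e1 : 0 ≤ i := by omega
      have e2 : 0 ≤ i + 1 := by omega
      simp only [e1, e2, if_true]
      have e3 : (i + 1).toNat = i.toNat + 1 := by omega
      rw [e3]
      exact (hR1 _).2.2
  · rw [tendsto_atTop]
    intro b
    obtain ⟨N, hN⟩ := (tendsto_atTop.1 hR2 b).exists_forall_of_atTop
    filter_upwards [eventually_ge_atTop (N : ℤ)] with i hi
    have e1 : 0 ≤ i := by omega
    simp only [e1, if_true]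
    exact hN _ (by omega)
  · rw [tendsto_atBot]
    intro b
    obtain ⟨N, hN⟩ := (tendsto_atTop.1 hL2 (-b)).exists_forall_of_atTop
    filter_upwards [eventually_le_atBot (-(N : ℤ) - 1)] with i hi
    have e1 : ¬ (0 ≤ i) := by omega
    simp only [e1, if_false]
    have := hN (-i).toNat (by omega)
    omega

/-- Arbitrarily long connections give, in a limit set, a two-sided walk. -/
theorem limit_walk (D A : Set ℤ) {M : ℤ} (hD : ∀ d ∈ D, d ≤ M) (hM : 0 < M)
    (hA : ∀ N : ℕ, ∃ x y, Conn D A x y ∧ (N : ℤ) ≤ y - x) :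
    ∃ s : ℤ → ℤ, (∀ i, |s (i + 1) - s i| ∈ D) ∧ Tendsto s atTop atTop ∧ Tendsto s atBot atBot ∧
      ∀ i j, ∃ x ∈ A, ∃ y ∈ A, s j - s i = x - y := by
  choose x y hc hxy using fun N : ℕ => hA (2 * N)
  set c : ℕ → ℤ := fun N => x N + N with hcdef
  set A' : Set ℤ := {t | ∀ᶠ N in (hyperfilter ℕ : Filter ℕ), t + c N ∈ A} with hA'
  have hge : ∀ k : ℕ, ∀ᶠ N in (hyperfilter ℕ : Filter ℕ), k ≤ N := by
    intro k
    have h2 : ∀ᶠ N in atTop, k ≤ N := eventually_ge_atTop k
    rw [← Nat.cofinite_eq_atTop] at h2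
    exact hyperfilter_le_cofinite h2
  have hagree : ∀ t : ℤ, ∀ᶠ N in (hyperfilter ℕ : Filter ℕ), (t + c N ∈ A → t ∈ A') := by
    intro t
    by_cases ht : t ∈ A'
    · exact Eventually.of_forall (fun _ _ => ht)
    · have h1 : ∀ᶠ N in (hyperfilter ℕ : Filter ℕ), ¬ (t + c N ∈ A) :=
        Ultrafilter.eventually_not.2 ht
      filter_upwards [h1] with N hN h2
      exact absurd h2 hN
  -- crossings of all windows
  have hcross : ∀ n : ℕ, ∃ a b, a ≤ -(n : ℤ) ∧ (n : ℤ) ≤ b ∧ Conn D A' a b := by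
    intro n
    set K : ℤ := -(n : ℤ) - M - 1 with hK
    have h1 : ∀ᶠ N in (hyperfilter ℕ : Filter ℕ), ∀ t ∈ Set.Ioo K (-K), (t + c N ∈ A → t ∈ A') :=
      (Filter.eventually_all_finite (Set.finite_Ioo K (-K))).2 (fun t _ => hagree t)
    obtain ⟨N, hN1, hN2⟩ := (h1.and (hge (n + M.toNat + 1))).exists
    have h2 := (hc N).translate (c N)
    have e1 : x N - c N = -(N : ℤ) := by rw [hcdef]; ring
    have e2 : (N : ℤ) ≤ y N - c N := by
      have := hxy N
      push_cast at this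
      show (N : ℤ) ≤ y N - (x N + N)
      omega
    rw [e1] at h2
    rcases last_exit hD K h2 (by omega) with ⟨h3, -⟩ | ⟨q, h3, h4, -, h5⟩
    · omega
    · have h6 := h5.symm.neg
      rcases last_exit hD K h6 (by omega) with ⟨h7, -⟩ | ⟨q', h7, h8, -, h9⟩
      · omega
      · have h10 := h9.neg.symm
        rw [neg_neg] at h10
        refine ⟨q, -q', by omega, by omega, h10.mono ?_⟩
        intro t ht
        simp only [Set.mem_ofPred_eq, Set.mem_inter_iff, Set.mem_Ioi, neg_neg] at ht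
        exact hN1 t ⟨ht.1.2, by omega⟩ ht.1.1
  obtain ⟨z, -, hz⟩ := pigeon (Finset.Ioc (-1) (-1 + M))
    (fun q n => (∃ b, (n : ℤ) ≤ b ∧ Conn D A' q b) ∧ ∃ a, a ≤ -(n : ℤ) ∧ Conn D A' a q)
    (fun q n m hnm hm => by
      obtain ⟨⟨b, h1, h2⟩, a, h3, h4⟩ := hm
      exact ⟨⟨b, by omega, h2⟩, a, by omega, h4⟩)
    (fun n => by
      obtain ⟨a, b, h1, h2, h3⟩ := hcross (n + 1)
      push_cast at h1 h2
      rcases last_exit hD (-1) h3 (by omega) with ⟨h4, -⟩ | ⟨q, h4, h5, h6, h7⟩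
      · omega
      · exact ⟨q, Finset.mem_Ioc.2 ⟨h4, h5⟩, ⟨b, by omega, h7.mono Set.inter_subset_left⟩, a,
          by omega, h6⟩)
  have hup : RayUp D A' z := rayUp hD hM (fun n => by
    obtain ⟨b, h1, h2⟩ := (hz n).1
    exact ⟨b, h1, h2⟩)
  have hdn : RayUp D {t | -t ∈ A'} (-z) := rayUp hD hM (fun n => by
    obtain ⟨a, h1, h2⟩ := (hz n).2
    exact ⟨-a, by omega, h2.symm.neg⟩)
  obtain ⟨s, hs1, hs2, hs3, hs4⟩ := two_sided hup hdn
  refine ⟨s, hs2, hs3, hs4, fun i j => ?_⟩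
  obtain ⟨N, h1, h2⟩ := ((hs1 i).and (hs1 j)).exists
  exact ⟨_, h2, _, h1, by ring⟩

end Pool.Agent.H41.PC
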