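import Mathlib
import Pool.Agent.H41.PC.Form
import Pool.Agent.H41.PC.Rays

/-!
# Sets with long connections by steps `u`, `v`, `u + v`
-/

set_option autoImplicit false

namespace Pool.Agent.H41.PC

open Filter

theorem exists_sum (d : ℤ → ℤ) : ∃ X : ℤ → ℤ, ∀ i, X (i + 1) = X i + d i := by
  refine ⟨fun i => (∑ k ∈ Finset.range i.toNat, d k) -
    ∑ k ∈ Finset.range (-i).toNat, d (-(k : ℤ) - 1), fun i => ?_⟩
  rcases le_or_gt 0 i with hi | hi
  · have e1 : (i + 1).toNat = i.toNat + 1 := by omega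
    have e2 : (-(i + 1)).toNat = 0 := by omega
    have e3 : (-i).toNat = 0 := by omega
    have e4 : ((i.toNat : ℕ) : ℤ) = i := by omega
    simp only [e1, e2, e3, Finset.range_zero, Finset.sum_empty, sub_zero, Finset.sum_range_succ, e4]
  · have e1 : (i + 1).toNat = 0 := by omega
    have e2 : i.toNat = 0 := by omega
    have e3 : (-i).toNat = (-(i + 1)).toNat + 1 := by omega
    have e4 : -(((-(i + 1)).toNat : ℕ) : ℤ) - 1 = i := by omega
    simp only [e1, e2, e3, Finset.range_zero, Finset.sum_empty, Finset.sum_range_succ, e4]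
    ring

theorem const_of_succ (f : ℤ → ℤ) (h : ∀ i, f (i + 1) = f i) (i : ℤ) : f i = f 0 := by
  rcases le_total 0 i with hi | hi
  · induction i, hi using Int.leInduction with
    | base => rfl
    | succ n hn ih => rw [h n, ih]
  · induction i, hi using Int.leInductionDown with
    | base => rfl
    | pred n hn ih =>
      have := h (n - 1)
      rw [sub_add_cancel] at this
      rw [← this, ih]

theorem lift_walk (u v : ℤ) (s : ℤ → ℤ) (St : ℤ → ℤ → Prop)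
    (h : ∀ i, ∃ dx dy, St dx dy ∧ s (i + 1) - s i = u * dx + v * dy) :
    ∃ X Y : ℤ → ℤ, (∀ i, St (X (i + 1) - X i) (Y (i + 1) - Y i)) ∧
      ∃ c, ∀ i, u * X i + v * Y i = s i + c := by
  choose dx dy h1 h2 using h
  obtain ⟨X, hX⟩ := exists_sum dx
  obtain ⟨Y, hY⟩ := exists_sum dy
  refine ⟨X, Y, fun i => ?_, u * X 0 + v * Y 0 - s 0, fun i => ?_⟩
  · rw [hX, hY, add_sub_cancel_left, add_sub_cancel_left]
    exact h1 i
  · have h3 := const_of_succ (fun i => u * X i + v * Y i - s i) (fun i => by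
      show u * X (i + 1) + v * Y (i + 1) - s (i + 1) = u * X i + v * Y i - s i
      rw [hX, hY]
      linear_combination -(h2 i)) i
    have h4 : u * X i + v * Y i - s i = u * X 0 + v * Y 0 - s 0 := h3
    linear_combination h4

/-- The steps of a walk. -/
def St3 (dx dy : ℤ) : Prop :=
  (dx = 1 ∧ dy = 0) ∨ (dx = -1 ∧ dy = 0) ∨ (dx = 0 ∧ dy = 1) ∨ (dx = 0 ∧ dy = -1) ∨
    (dx = 1 ∧ dy = 1) ∨ (dx = -1 ∧ dy = -1)

def St2 (dx dy : ℤ) : Prop :=
  (dx = 1 ∧ dy = 0) ∨ (dx = -1 ∧ dy = 0) ∨ (dx = 0 ∧ dy = 1) ∨ (dx = 0 ∧ dy = -1)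

theorem St2.st3 {dx dy : ℤ} (h : St2 dx dy) : St3 dx dy := by
  rcases h with h | h | h | h
  · exact Or.inl h
  · exact Or.inr (Or.inl h)
  · exact Or.inr (Or.inr (Or.inl h))
  · exact Or.inr (Or.inr (Or.inr (Or.inl h)))

theorem pwalk (u v : ℤ) (hu : 0 < u) (hv : 0 < v) (X Y s : ℤ → ℤ)
    (hst : ∀ i, St3 (X (i + 1) - X i) (Y (i + 1) - Y i)) (c : ℤ)
    (hc : ∀ i, u * X i + v * Y i = s i + c) (h1 : Tendsto s atTop atTop)
    (h2 : Tendsto s atBot atBot) : PWalk u v X Y (fun i => s i + c) where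
  hu := hu
  hv := hv
  hH := fun i => (hc i).symm
  step := by
    intro i
    rcases hst i with h | h | h | h | h | h
    · exact Or.inl ⟨by omega, by omega⟩
    · exact Or.inr (Or.inl ⟨by omega, by omega⟩)
    · exact Or.inr (Or.inr (Or.inl ⟨by omega, by omega⟩))
    · exact Or.inr (Or.inr (Or.inr (Or.inl ⟨by omega, by omega⟩)))
    · exact Or.inr (Or.inr (Or.inr (Or.inr (Or.inl ⟨by omega, by omega⟩))))
    · exact Or.inr (Or.inr (Or.inr (Or.inr (Or.inr ⟨by omega, by omega⟩))))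
  top := tendsto_atTop_add_const_right _ c h1
  bot := tendsto_atBot_add_const_right _ c h2

theorem three (u v : ℤ) (hu : 0 < u) (hv : 0 < v) (A : Set ℤ)
    (hA : ∀ N : ℕ, ∃ x y, Conn {u, v, u + v} A x y ∧ (N : ℤ) ≤ y - x) :
    ∃ θ a b : ℝ, a * v + b * u = Int.gcd u v ∧ (∃ k : ℤ, u * θ + a = k) ∧
      (∃ k : ℤ, v * θ - b = k) ∧
      ∀ n : ℤ, (Int.gcd u v : ℤ) ∣ n → |n * θ - round (n * θ)| < max |a| (max |b| |a - b|) →
        ∃ x ∈ A, ∃ y ∈ A, n = x - y := by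
  obtain ⟨s, hs1, hs2, hs3, hs4⟩ := limit_walk {u, v, u + v} A (M := u + v)
    (by rintro d (rfl | rfl | rfl) <;> omega) (by omega) hA
  obtain ⟨X, Y, hst, c, hc⟩ := lift_walk u v s St3 (fun i => by
    rcases hs1 i with h | h | h
    · rcases (abs_eq hu.le).1 h with h1 | h1
      · exact ⟨1, 0, Or.inl ⟨rfl, rfl⟩, by rw [h1]; ring⟩
      · exact ⟨-1, 0, Or.inr (Or.inl ⟨rfl, rfl⟩), by rw [h1]; ring⟩
    · rcases (abs_eq hv.le).1 h with h1 | h1
      · exact ⟨0, 1, Or.inr (Or.inr (Or.inl ⟨rfl, rfl⟩)), by rw [h1]; ring⟩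
      · exact ⟨0, -1, Or.inr (Or.inr (Or.inr (Or.inl ⟨rfl, rfl⟩))), by rw [h1]; ring⟩
    · rcases (abs_eq (by omega : 0 ≤ u + v)).1 (Set.mem_singleton_iff.1 h) with h1 | h1
      · exact ⟨1, 1, Or.inr (Or.inr (Or.inr (Or.inr (Or.inl ⟨rfl, rfl⟩)))), by rw [h1]; ring⟩
      · exact ⟨-1, -1, Or.inr (Or.inr (Or.inr (Or.inr (Or.inr ⟨rfl, rfl⟩)))), by rw [h1]; ring⟩)
  have w := pwalk u v hu hv X Y s hst c hc hs2 hs3
  obtain ⟨θ, a, b, hab, h1, h2, h3⟩ := w.bohr (fun a b => max |a| (max |b| |a - b|)) (by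
    intro a b
    rcases max_choice |a| (max |b| |a - b|) with h | h
    · refine ⟨1, 0, w.inv10, ?_⟩
      show max |a| (max |b| |a - b|) ≤ _
      rw [h]
      push_cast
      rw [mul_zero, mul_one, zero_sub, abs_neg]
    · rcases max_choice |b| |a - b| with h' | h'
      · refine ⟨0, 1, w.inv01, ?_⟩
        show max |a| (max |b| |a - b|) ≤ _
        rw [h, h']
        push_cast
        rw [mul_zero, mul_one, sub_zero]
      · refine ⟨1, 1, w.inv11, ?_⟩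
        show max |a| (max |b| |a - b|) ≤ _
        rw [h, h']
        push_cast
        rw [mul_one, mul_one, abs_sub_comm])
  refine ⟨θ, a, b, hab, h1, h2, fun n hn hlt => ?_⟩
  obtain ⟨i, j, hij⟩ := h3 n hn hlt
  obtain ⟨x, hx, y, hy, hxy⟩ := hs4 i j
  exact ⟨x, hx, y, hy, by rw [hij, ← hxy]; ring⟩

theorem two (u v : ℤ) (hu : 0 < u) (hv : 0 < v) (A : Set ℤ)
    (hA : ∀ N : ℕ, ∃ x y, Conn {u, v} A x y ∧ (N : ℤ) ≤ y - x) :
    ∃ θ a b : ℝ, a * v + b * u = Int.gcd u v ∧ (∃ k : ℤ, u * θ + a = k) ∧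
      (∃ k : ℤ, v * θ - b = k) ∧
      ∀ n : ℤ, (Int.gcd u v : ℤ) ∣ n → |n * θ - round (n * θ)| < |a| + |b| →
        ∃ x ∈ A, ∃ y ∈ A, n = x - y := by
  obtain ⟨s, hs1, hs2, hs3, hs4⟩ := limit_walk {u, v} A (M := u + v)
    (by rintro d (rfl | rfl) <;> omega) (by omega) hA
  obtain ⟨X, Y, hst, c, hc⟩ := lift_walk u v s St2 (fun i => by
    rcases hs1 i with h | h
    · rcases (abs_eq hu.le).1 h with h1 | h1
      · exact ⟨1, 0, Or.inl ⟨rfl, rfl⟩, by rw [h1]; ring⟩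
      · exact ⟨-1, 0, Or.inr (Or.inl ⟨rfl, rfl⟩), by rw [h1]; ring⟩
    · rcases (abs_eq hv.le).1 (Set.mem_singleton_iff.1 h) with h1 | h1
      · exact ⟨0, 1, Or.inr (Or.inr (Or.inl ⟨rfl, rfl⟩)), by rw [h1]; ring⟩
      · exact ⟨0, -1, Or.inr (Or.inr (Or.inr ⟨rfl, rfl⟩)), by rw [h1]; ring⟩)
  have w := pwalk u v hu hv X Y s (fun i => (hst i).st3) c hc hs2 hs3
  have hnd : NoDiag X Y := by
    intro i
    rcases hst i with h | h | h | h
    · exact Or.inl ⟨by omega, by omega⟩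
    · exact Or.inr (Or.inl ⟨by omega, by omega⟩)
    · exact Or.inr (Or.inr (Or.inl ⟨by omega, by omega⟩))
    · exact Or.inr (Or.inr (Or.inr ⟨by omega, by omega⟩))
  obtain ⟨θ, a, b, hab, h1, h2, h3⟩ := w.bohr (fun a b => |a| + |b|) (by
    intro a b
    have key : |a| + |b| = |a + b| ∨ |a| + |b| = |a - b| := by
      rcases le_total 0 a with ha | ha <;> rcases le_total 0 b with hb | hb
      · left
        rw [abs_of_nonneg ha, abs_of_nonneg hb, abs_of_nonneg (by linarith)]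
      · right
        rw [abs_of_nonneg ha, abs_of_nonpos hb, abs_of_nonneg (by linarith)]
        ring
      · right
        rw [abs_of_nonpos ha, abs_of_nonneg hb, abs_of_nonpos (by linarith)]
        ring
      · left
        rw [abs_of_nonpos ha, abs_of_nonpos hb, abs_of_nonpos (by linarith)]
        ring
    rcases key with h | h
    · refine ⟨1, -1, w.invAnti hnd, ?_⟩
      show |a| + |b| ≤ _
      rw [h, ← abs_neg (a + b)]
      push_cast
      rw [show b * -1 - a * 1 = -(a + b) by ring]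
    · refine ⟨1, 1, w.inv11, ?_⟩
      show |a| + |b| ≤ _
      rw [h]
      push_cast
      rw [mul_one, mul_one, abs_sub_comm])
  refine ⟨θ, a, b, hab, h1, h2, fun n hn hlt => ?_⟩
  obtain ⟨i, j, hij⟩ := h3 n hn hlt
  obtain ⟨x, hx, y, hy, hxy⟩ := hs4 i j
  exact ⟨x, hx, y, hy, by rw [hij, ← hxy]; ring⟩

theorem conn_of_seq {D A : Set ℤ} (s : ℕ → ℤ) (k : ℕ) (h1 : ∀ i ≤ k, s i ∈ A)
    (h2 : ∀ i < k, |s (i + 1) - s i| ∈ D) : Conn D A (s 0) (s k) := by
  induction k with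
  | zero => exact Relation.ReflTransGen.refl
  | succ n ih =>
    refine Relation.ReflTransGen.tail (ih (fun i hi => h1 i (by omega))
      (fun i hi => h2 i (by omega))) ⟨h1 n (by omega), h1 (n + 1) le_rfl, h2 n (by omega)⟩

/-- Unit steps downwards. -/
theorem conn_down {D A : Set ℤ} (hD : (1 : ℤ) ∈ D) (b : ℤ) (i : ℕ) (h : ∀ t : ℕ, t ≤ i → b - t ∈ A) :
    Conn D A b (b - i) := by
  have h1 := conn_of_seq (D := D) (A := A) (fun t : ℕ => b - t) i h (fun t _ => by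
    show |b - ((t + 1 : ℕ) : ℤ) - (b - t)| ∈ D
    rw [show b - ((t + 1 : ℕ) : ℤ) - (b - t) = -1 by push_cast; ring]
    simpa using hD)
  simpa using h1

/-- Blocks of consecutive integers. -/
theorem blocks (v : ℕ) (A : Set ℤ) (hne : A.Nonempty)
    (hA : ∀ b ∈ A, b + 1 ∈ A ∨ ∃ i l j : ℕ, l ≤ v ∧ 1 ≤ j ∧ v ≤ i + l + j ∧
      (∀ t : ℕ, t ≤ i → b - t ∈ A) ∧ ∀ t : ℕ, 1 ≤ t → t ≤ j → b + l + t ∈ A) (N : ℕ) :
    ∃ x y, Conn {1, (v : ℤ), 1 + (v : ℤ)} A x y ∧ (N : ℤ) ≤ y - x := by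
  have hnext : ∀ b ∈ A, ∃ c ∈ A, b < c ∧ Conn {1, (v : ℤ), 1 + (v : ℤ)} A b c := by
    intro b hb
    rcases hA b hb with h | ⟨i, l, j, hl, hj, hv2, h1, h2⟩
    · refine ⟨b + 1, h, by omega, Relation.ReflTransGen.single ⟨hb, h, Or.inl ?_⟩⟩
      rw [add_sub_cancel_left, abs_one]
    · have key : ∃ t1 t2 : ℕ, t1 ≤ i ∧ 1 ≤ t2 ∧ t2 ≤ j ∧ (l + t1 + t2 = v ∨ l + t1 + t2 = 1 + v) := by
        by_cases hT : v + 1 - l ≤ i + j
        · exact ⟨v + 1 - l - min j (v + 1 - l), min j (v + 1 - l), by omega, by omega, by omega,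
            Or.inr (by omega)⟩
        · exact ⟨i, j, le_rfl, hj, le_rfl, Or.inl (by omega)⟩
      obtain ⟨t1, t2, a1, a2, a3, a4⟩ := key
      have m1 : b - t1 ∈ A := h1 t1 a1
      have m2 : b + l + t2 ∈ A := h2 t2 a2 a3
      refine ⟨b + l + t2, m2, by omega, Relation.ReflTransGen.tail
        (conn_down (by simp) b t1 (fun t ht => h1 t (le_trans ht a1))) ⟨m1, m2, ?_⟩⟩
      have e : b + l + t2 - (b - t1) = ((l + t1 + t2 : ℕ) : ℤ) := by push_cast; ring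
      rw [e, Nat.abs_cast]
      rcases a4 with a4 | a4
      · rw [a4]
        exact Or.inr (Or.inl rfl)
      · rw [a4]
        refine Or.inr (Or.inr ?_)
        push_cast
        rfl
  obtain ⟨b0, hb0⟩ := hne
  have h3 : ∀ n : ℕ, ∃ c ∈ A, Conn {1, (v : ℤ), 1 + (v : ℤ)} A b0 c ∧ (n : ℤ) ≤ c - b0 := by
    intro n
    induction n with
    | zero => exact ⟨b0, hb0, Relation.ReflTransGen.refl, by simp⟩
    | succ n ih =>
      obtain ⟨c, hc, h4, h5⟩ := ih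
      obtain ⟨c', hc', h6, h7⟩ := hnext c hc
      exact ⟨c', hc', h4.trans h7, by push_cast; omega⟩
  obtain ⟨c, -, h4, h5⟩ := h3 N
  exact ⟨b0, c, h4, h5⟩

end Pool.Agent.H41.PC
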